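import Mathlib

/-! Equivariant maps into a representation induced from a subgroup of index two. -/

set_option autoImplicit false

open scoped Classical TensorProduct

namespace Pool.Agent.Lib.MP_60ff09_nt.CB

variable {G L V A W κ : Type} [Group G] [Field L] [AddCommGroup V] [Module L V] [AddCommGroup A]
  [Module L A] [AddCommGroup W] [Module L W] {H : G → Prop} {τ : G} {p : Module.End L A}

/-- An action with a projector that commutes with a subgroup of index two. -/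
structure Sp (H : G → Prop) (τ : G) (p : Module.End L A) (ρ : G → Module.End L A) : Prop where
  mul : ∀ σ σ' x, ρ (σ * σ') x = ρ σ (ρ σ' x)
  comm : ∀ σ, H σ → ∀ x, p (ρ σ x) = ρ σ (p x)
  anti : ∀ x, p (ρ τ x) = ρ τ (x - p x)

/-- A subgroup of index two and an element outside it. -/
structure Two (H : G → Prop) (τ : G) : Prop where
  sq : H (τ * τ)
  conj : ∀ σ, H σ → H (τ⁻¹ * σ * τ)
  cases : ∀ σ, H σ ∨ H (τ⁻¹ * σ)

/-- The vectors in the image of the projector that are fixed by the subgroup. -/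
def Eig (H : G → Prop) (p : Module.End L A) (ρ : G → Module.End L A) : Submodule L A where
  carrier := {x | p x = x ∧ ∀ σ, H σ → ρ σ x = x}
  add_mem' := fun a b => ⟨by rw [map_add, a.1, b.1], fun σ h => by rw [map_add, a.2 σ h, b.2 σ h]⟩
  zero_mem' := ⟨map_zero _, fun _ _ => map_zero _⟩
  smul_mem' := fun c x a => ⟨by rw [map_smul, a.1], fun σ h => by rw [map_smul, a.2 σ h]⟩

theorem fix_equiv {ρ : G → Module.End L A} (t : Two H τ) (hp : ∀ x, p (p x) = p x)
    (s : Sp H τ p ρ) (R : W →ₗ[L] A) (inj : Function.Injective R)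
    (hR : ∀ x, x ∈ LinearMap.range R ↔ ∀ σ, ρ σ x = x) : Nonempty (W ≃ₗ[L] Eig H p ρ) := by
  have k : ∀ u σ, ρ σ (R u) = R u := fun u => (hR _).1 ⟨u, rfl⟩
  refine ⟨LinearEquiv.ofBijective ((p ∘ₗ R).codRestrict (Eig H p ρ) fun u =>
    ⟨hp _, fun σ h => (s.comm σ h _).symm.trans (congrArg p (k u σ))⟩)
    ⟨(injective_iff_map_eq_zero _).2 fun u e => inj ?_, fun ⟨z, z1, z2⟩ => ?_⟩⟩
  · have e1 : p (R u) = 0 := congrArg Subtype.val e
    have e2 := s.anti (R u)
    rw [k, e1, sub_zero, k] at e2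
    rw [← e2, map_zero]
  · have e1 : ∀ σ, H σ → ρ σ (z + ρ τ z) = z + ρ τ z := fun σ h => by
      rw [map_add, z2 σ h, ← s.mul, show σ * τ = τ * (τ⁻¹ * σ * τ) by group, s.mul,
        z2 _ (t.conj σ h)]
    obtain ⟨u, hu⟩ := (hR (z + ρ τ z)).2 fun σ => (t.cases σ).elim (e1 σ) fun h => by
      rw [show σ = τ * (τ⁻¹ * σ) by group, s.mul, e1 _ h, map_add, ← s.mul, z2 _ t.sq, add_comm]
    refine ⟨u, Subtype.ext ?_⟩
    change p (R u) = z
    rw [hu, map_add, s.anti, z1, sub_self, map_zero, add_zero]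

theorem hom_equiv {ρ : G → Module.End L A} {ρ' : κ → G → Module.End L A} (t : Two H τ)
    (hp : ∀ x, p (p x) = p x) (s : Sp H τ p ρ) (α : G →* Module.End L V) (w : Module.Basis κ L V)
    (hw : ∀ i σ, H σ → ∃ a : L, a ≠ 0 ∧ α σ (w i) = a • w i ∧ ∀ x, p x = x → ρ σ x = a • ρ' i σ x)
    (X : W →ₗ[L] V →ₗ[L] A) (inj : Function.Injective X)
    (hX : ∀ T, T ∈ LinearMap.range X ↔ ∀ σ x, T (α σ x) = ρ σ (T x)) :
    Nonempty (W ≃ₗ[L] ∀ i, Eig H p (ρ' i)) := by
  let r : G → Module.End L (V →ₗ[L] A) := fun σ =>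
    LinearMap.llcomp L V A A (ρ σ) ∘ₗ LinearMap.lcomp L A (α σ⁻¹)
  let q : Module.End L (V →ₗ[L] A) := LinearMap.llcomp L V A A p
  have a1 : ∀ σ x, α σ⁻¹ (α σ x) = x := fun σ x => by
    rw [← Module.End.mul_apply, ← map_mul, inv_mul_cancel, map_one, Module.End.one_apply]
  have a2 : ∀ σ T, r σ T = T ↔ ∀ x, T (α σ x) = ρ σ (T x) := fun σ T =>
    ⟨fun h x => (LinearMap.congr_fun h _).symm.trans (congrArg (fun v => ρ σ (T v)) (a1 σ x)),
      fun h => LinearMap.ext fun x => (h _).symm.trans (congrArg T (inv_inv σ ▸ a1 σ⁻¹ x :))⟩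
  obtain ⟨e⟩ := fix_equiv (p := q) (ρ := r) t (fun T => LinearMap.ext fun x => hp _)
    ⟨fun σ σ' T => LinearMap.ext fun x => (s.mul ..).trans (by simp [r]),
      fun σ h T => LinearMap.ext fun x => s.comm σ h _,
      fun T => LinearMap.ext fun x => s.anti _⟩ X inj fun T => by simp only [hX, a2]
  refine ⟨e.trans (LinearEquiv.ofBijective (LinearMap.pi fun i =>
    (LinearMap.applyₗ (w i) ∘ₗ (Eig H q r).subtype).codRestrict (Eig H p (ρ' i)) fun T =>
      ⟨LinearMap.congr_fun T.2.1 _, fun σ h => ?_⟩)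
    ⟨fun T T' e => Subtype.ext (w.ext fun i => congrArg Subtype.val (congrFun e i)),
      fun z => ⟨⟨w.constr L fun i => z i, w.ext fun i => ?_, fun σ h => (a2 ..).2 fun x => ?_⟩,
        funext fun i => Subtype.ext (w.constr_basis L _ i)⟩⟩)⟩
  · obtain ⟨a, a0, e1, e2⟩ := hw i σ h
    have e3 := (a2 ..).1 (T.2.2 σ h) (w i)
    rw [e1, map_smul, e2 _ (LinearMap.congr_fun T.2.1 _)] at e3
    exact (smul_right_injective _ a0 e3).symm
  · change p (w.constr L _ (w i)) = _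
    rw [w.constr_basis, (z i).2.1]
  · refine LinearMap.congr_fun (f := w.constr L _ ∘ₗ α σ) (g := ρ σ ∘ₗ w.constr L _)
      (w.ext fun i => ?_) x
    obtain ⟨a, -, e1, e2⟩ := hw i σ h
    rw [LinearMap.comp_apply, LinearMap.comp_apply, e1, map_smul, w.constr_basis, e2 _ (z i).2.1,
      (z i).2.2 σ h]

/-- The fixed vectors after extension of scalars. -/
theorem avg_range [CharZero L] [Finite G] {P U : Type} [AddCommGroup P] [AddCommGroup U]
    (K : Subgroup G) (μ : G → P →+ P) (hμ : ∀ σ σ' x, μ (σ * σ') x = μ σ (μ σ' x)) (Φ : U →+ P)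
    (hΦ : ∀ x, x ∈ Set.range Φ ↔ ∀ σ ∈ K, μ σ x = x) (x : L ⊗[ℤ] P) :
    x ∈ LinearMap.range (Φ.toIntLinearMap.baseChange L) ↔
      ∀ σ ∈ K, (μ σ).toIntLinearMap.baseChange L x = x := by
  have := Fintype.ofFinite K
  refine ⟨?_, fun h => ?_⟩
  · rintro ⟨x, rfl⟩ σ hσ
    induction x using TensorProduct.induction_on with
    | zero => simp
    | add x y hx hy => rw [map_add, map_add, hx, hy]
    | tmul l R => exact congrArg (l ⊗ₜ[ℤ] ·) ((hΦ _).1 ⟨R, rfl⟩ σ hσ)
  have k : ∀ z, (∑ σ : K, (μ σ.1).toIntLinearMap.baseChange L) z ∈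
      LinearMap.range (Φ.toIntLinearMap.baseChange L) := fun z => by
    induction z using TensorProduct.induction_on with
    | zero => simp
    | add x y hx hy =>
      rw [map_add]
      exact add_mem hx hy
    | tmul l P =>
      obtain ⟨R, hR⟩ := (hΦ (∑ σ : K, μ σ.1 P)).2 fun σ hσ => by
        rw [map_sum, ← Equiv.sum_comp (Equiv.mulLeft (⟨σ, hσ⟩ : K)) fun σ : K => μ σ.1 P]
        exact Finset.sum_congr rfl fun τ _ => (hμ σ τ P).symm
      refine ⟨l ⊗ₜ R, ?_⟩
      rw [LinearMap.sum_apply]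
      change l ⊗ₜ Φ R = _
      rw [hR, TensorProduct.tmul_sum]
      rfl
  have k1 := k x
  rw [LinearMap.sum_apply, Finset.sum_congr rfl fun σ _ => h σ.1 σ.2, Finset.sum_const,
    ← Nat.cast_smul_eq_nsmul L] at k1
  exact (Submodule.smul_mem_iff _ (Nat.cast_ne_zero.2 Finset.univ_nonempty.card_ne_zero)).1 k1

end Pool.Agent.Lib.MP_60ff09_nt.CB
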