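import Pool.Agent.Lib.MP_60ff09_nt.V6Defs
import Pool.Agent.Lib.MP_696deb_nt.CQ.W

/-! Sums of two representations induced from sextic Kummer characters of the Eisenstein field. -/

set_option autoImplicit false

open NumberField CategoryTheory MonoidalCategory

namespace Pool.Agent.Lib.MP_60ff09_nt.CB

/-- The representation `V` is the sum of the two representations induced from the characters of the
subgroup fixing `ζ` that send `σ` to `j ^ k` when `σ (y a) = ζ ^ k y a`. -/
def Theta6 {M L : Type} [Field M] [NumberField M] [Field L] (V : Rep L (M ≃ₐ[ℚ] M)) (ζ : M)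
    (y : Fin 2 → M) (j : L) : Prop :=
  ∃ (v : Module.Basis (Fin 2 × Fin 2) L V) (τ : M ≃ₐ[ℚ] M), τ ζ = 1 - ζ ∧ ∀ a : Fin 2,
    V.ρ τ (v (a, 0)) = v (a, 1) ∧ ∀ (σ : M ≃ₐ[ℚ] M) (k : ℕ), σ ζ = ζ → σ (y a) = ζ ^ k * y a →
      V.ρ σ (v (a, 0)) = j ^ k • v (a, 0)

/-- The curve `y ^ 2 = x ^ 3 + B`. -/
def Ec (B : ℤ) : WeierstrassCurve ℚ := { a₁ := 0, a₂ := 0, a₃ := 0, a₄ := 0, a₆ := B }

/-- The coefficients at primes of the newform of this curve. -/
noncomputable def ac (B : ℤ) (p : ℕ) : ℤ :=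
  p - Nat.card {q : ZMod p × ZMod p // q.2 ^ 2 = q.1 ^ 3 + B}

/-- A number with the same prime factors as the level of this newform, for `B` free of sixth
powers. -/
def lev (B : ℤ) : ℕ := if B % 64 = 16 then (3 * (B / 16)).natAbs else (6 * B).natAbs

/-- The number of the four curves `y ^ 2 = x ^ 3 + B (D a) ^ b` with `b` equal to one or five whose
root number is not one. -/
noncomputable def minus6 (B : ℤ) (D : Fin 2 → ℤ) : ℕ :=
  Set.ncard {i : Fin 2 × Fin 2 | MP_696deb_nt.CQ.rootNumber (B * D i.1 ^ (4 * i.2.1 + 1)) ≠ 1}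

/-- The conjecture holds, both sides being `r`, for the newform attached to the curve
`y ^ 2 = x ^ 3 + B` and all pairs of two-dimensional representations whose tensor product is the
sum of the representations induced from the sextic characters of the Eisenstein field given by the
sixth roots of `D 0` and of `D 1`. -/
def HoldsS (B : ℤ) (D : Fin 2 → ℤ) (r : ℕ) : Prop :=
  ∀ (M L : Type) [Field M] [NumberField M] [IsGalois ℚ M] [Field L] [Algebra L ℂ] (ζ : M)
    (y : Fin 2 → M) (j : L) (Vg Vh : Rep L (M ≃ₐ[ℚ] M)), Module.finrank L Vg = 2 →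
    Module.finrank L Vh = 2 → ζ ^ 2 = ζ - 1 → (∀ a, y a ^ 6 = D a) → j ^ 2 = j - 1 →
    Theta6 (Vg ⊗ Vh) ζ y j → V6.BeilN (Ec B) (lev B) (ac B) (Vg ⊗ Vh) r

/-- The integer `N` is prime to `2 B` and `A N ^ 2` is free of sixth powers. -/
def Adm (B A N : ℤ) : Prop :=
  IsCoprime N (2 * B) ∧ ∀ p : ℕ, p.Prime → ¬ (p : ℤ) ^ 6 ∣ A * N ^ 2

end Pool.Agent.Lib.MP_60ff09_nt.CB
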