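import Pool.Agent.Lib.MP_60ff09_nt.CB.Gal

/-! The Euler factors for sums of representations induced from sextic characters. -/

set_option autoImplicit false

open scoped Classical TensorProduct
open NumberField CategoryTheory MonoidalCategory
open Pool.Agent.Lib.MP_696deb_nt
open Pool.Agent.Lib.MP_696deb_nt.CL (O toC)
open Pool.Agent.Lib.MP_696deb_nt.CQ (cnb)

namespace Pool.Agent.Lib.MP_60ff09_nt.CB

open V4 V6

/-- The inverse of the Euler factor of the curve `y ^ 2 = x ^ 3 + b`. -/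
noncomputable def lf (b : ℤ) (p : ℕ) (s : ℂ) : ℂ :=
  if p ∣ lev b then 1 else 1 - ((p : ℂ) - (cnb b p : ℂ)) * (p : ℂ) ^ (-s) + (p : ℂ) ^ (1 - 2 * s)

theorem ac_eq (B : ℤ) (p : ℕ) : ac B p = p - cnb B p := by simp [ac, cnb]

theorem dvd_lev {b : ℤ} {p : ℕ} (hp : p.Prime) :
    p ∣ lev b ↔ p = 3 ∨ if p = 2 then b % 64 ≠ 16 else (p : ℤ) ∣ b := by
  have hP := Nat.prime_iff_prime_int.1 hp
  have d2 : (p : ℤ) ∣ 2 ↔ p = 2 := by
    rw [← Nat.prime_dvd_prime_iff_eq hp Nat.prime_two]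
    exact_mod_cast Iff.rfl
  have d3 : (p : ℤ) ∣ 3 ↔ p = 3 := by
    rw [← Nat.prime_dvd_prime_iff_eq hp Nat.prime_three]
    exact_mod_cast Iff.rfl
  unfold lev
  by_cases h : b % 64 = 16
  · rw [if_pos h, ← Int.natCast_dvd, hP.dvd_mul, d3]
    refine or_congr_right ?_
    split_ifs with k
    · subst k
      omega
    · conv_rhs => rw [show b = 2 ^ 4 * (b / 16) by omega, hP.dvd_mul,
        hP.dvd_pow_iff_dvd four_ne_zero, d2, or_iff_right k]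
  · rw [if_neg h, ← Int.natCast_dvd, hP.dvd_mul, show (6 : ℤ) = 3 * 2 from rfl, hP.dvd_mul, d2, d3,
      or_assoc]
    split_ifs with k <;> simp [k, h]

theorem good_iff {B N : ℤ} (h : IsCoprime N (2 * B)) (h4 : B % 32 = 16 → N % 4 = 1) :
    B * N % 64 = 16 ↔ B % 64 = 16 := by
  have k : ∀ u : ℤ, B = 16 * u → u % 2 = 1 → (B * N % 64 = 16 ↔ B % 64 = 16) := fun u e k => by
    obtain ⟨t, ht⟩ : ∃ t, N = 4 * t + 1 := ⟨N / 4, by omega⟩
    rw [show B * N = B + 64 * (u * t) by rw [ht, e]; ring]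
    omega
  refine ⟨fun e => ?_, fun e => (k (B / 16) (by omega) (by omega)).2 e⟩
  obtain ⟨u, hu⟩ : 16 ∣ B := (h.of_mul_right_left.symm.pow_left (m := 4)).dvd_of_dvd_mul_right
    (show 16 ∣ B * N by omega)
  refine (k u hu ?_).1 e
  by_contra c
  obtain ⟨v, rfl⟩ : ∃ v, u = 2 * v := ⟨u / 2, by omega⟩
  rw [show B * N = 32 * (v * N) by rw [hu]; ring] at e
  omega

theorem onInv_ne {G : Type} [Group G] [Finite G] (V : Rep ℂ G) (I : Subgroup G) (φ : G) {w : V}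
    {τ : G} (hτ : τ ∈ I) {c : ℂ} (hc : c ≠ 1) (h : V.ρ τ w = c • w) : onInv V I φ w = 0 := by
  have := Fintype.ofFinite I
  have e : ∑ σ : I, V.ρ φ (V.ρ σ w) = c • ∑ σ : I, V.ρ φ (V.ρ σ w) := by
    rw [Finset.smul_sum, ← Equiv.sum_comp (Equiv.mulRight (⟨τ, hτ⟩ : I))]
    refine Finset.sum_congr rfl fun σ _ => ?_
    rw [Equiv.coe_mulRight, Subgroup.coe_mul, map_mul, Module.End.mul_apply, h, map_smul, map_smul]
  rw [← sub_eq_zero, ← one_smul ℂ (∑ σ : I, _), smul_smul, mul_one, ← sub_smul, smul_eq_zero,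
    or_iff_right (sub_ne_zero.2 hc.symm)] at e
  rw [onInv_apply, finsum_eq_sum_of_fintype, e, smul_zero]

/-- Admissible twisting parameters. -/
structure Ok (B N : ℤ) : Prop where
  cop : IsCoprime N (2 * B)
  four : B % 32 = 16 → N % 4 = 1
  val : ∀ p : ℕ, p.Prime → (p : ℤ) ∣ N → ¬ 6 ∣ padicValInt p N

theorem Ok.ne {B N : ℤ} (h : Ok B N) : N ≠ 0 := fun e => h.val 2 Nat.prime_two (by simp [e]) (by simp [e])

theorem Ok.lev {B N : ℤ} (h : Ok B N) {p : ℕ} (hp : p.Prime) :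
    p ∣ lev (B * N) ↔ p ∣ lev B ∨ (p : ℤ) ∣ N := by
  rw [dvd_lev hp, dvd_lev hp, or_assoc]
  split_ifs with k
  · subst k
    rw [ne_eq, good_iff h.cop h.four, or_iff_left fun k : ((2 : ℕ) : ℤ) ∣ N =>
      Int.prime_two.not_isUnit (h.cop.isUnit_of_dvd' k (dvd_mul_right 2 B))]
  · rw [(Nat.prime_iff_prime_int.1 hp).dvd_mul]

variable {M : Type} [Field M] [NumberField M] [IsGalois ℚ M] {ζ : M} {B : ℤ} {κ : Type} [Fintype κ]
  {y : κ → M} {N : κ → ℤ} {o : κ → κ}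

theorem eul_gen {V : Rep ℂ (M ≃ₐ[ℚ] M)} {j : ℂ} (w : Module.Basis κ ℂ V)
    (h : ∀ (i) (σ : M ≃ₐ[ℚ] M), σ ζ = ζ → ∃ k : ℕ, σ (y i) = ζ ^ k * y i ∧ V.ρ σ (w i) = j ^ k • w i)
    (hζ : ζ ^ 2 = ζ - 1) (hj : j ^ 2 = j - 1) (hy : ∀ i, y i ^ 6 = N i) (hN : ∀ i, Ok B (N i))
    (oo : Function.Involutive o) (ho : ∀ (i) (σ : M ≃ₐ[ℚ] M), σ (y i * y (o i)) = y i * y (o i))
    {p : ℕ} (hp : p.Prime) {Q : Ideal (𝓞 M)} [Q.IsPrime] (hQ : (p : 𝓞 M) ∈ Q) {φ : M ≃ₐ[ℚ] M}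
    (hφ : IsArithFrobAt ℤ φ Q) (s : ℂ) :
    eulN (lev B) (onInv V (Q.inertia (M ≃ₐ[ℚ] M)) φ) (p - cnb B p) p s =
      ∏ i, lf (B * N i) p s := by
  have y0 : ∀ i, y i ≠ 0 := fun i => root_ne (hN i).ne (hy i)
  have jz : ∀ k : ℕ, j ^ k = 1 ↔ ζ ^ k = 1 := fun k => by
    rw [(prim6 hj).pow_eq_one_iff_dvd, (prim6 hζ).pow_eq_one_iff_dvd]
  have fix : ∀ (i) (σ : M ≃ₐ[ℚ] M), σ ζ = ζ → σ (y i) = y i → V.ρ σ (w i) = w i :=
    fun i σ e1 e2 => by
      obtain ⟨k, e3, e4⟩ := h i σ e1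
      rw [e4, (jz k).2 (mul_right_cancel₀ (y0 i) (e3.symm.trans (e2.trans (one_mul _).symm))),
        one_smul]
  have hP := Nat.prime_iff_prime_int.1 hp
  by_cases h4 : p ∣ lev B
  · have e : cnb B p = p := cnb_eq hp (by
      have := (dvd_lev hp).1 h4
      split_ifs at this <;> omega)
    simp [eulN, lf, e, h4, (hN _).lev hp]
  have hb := mt (dvd_lev hp).2 h4
  have h3 : p % 3 ≠ 0 := fun k => hb (.inl ((Nat.prime_dvd_prime_iff_eq Nat.prime_three hp).1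
    (Nat.dvd_of_mod_eq_zero k)).symm)
  have h1 : ¬ (p : ℤ) ∣ 1 := hP.not_dvd_one
  have iz : ∀ τ ∈ Q.inertia (M ≃ₐ[ℚ] M), τ ζ = ζ := fun τ =>
    ine_six (z_six hζ) hp hQ (nd_three hp h3 h1) fun _ => rfl
  have iy : ∀ i, ¬ (p : ℤ) ∣ N i → ∀ τ ∈ Q.inertia (M ≃ₐ[ℚ] M), τ (y i) = y i := fun i k τ =>
    ine_six (hy i) hp hQ (nd_three hp h3 k) fun e => (hN i).four (by
      rw [if_pos e] at hb
      omega)
  have e0 : ∀ i, (p : ℤ) ∣ N i → onInv V (Q.inertia (M ≃ₐ[ℚ] M)) φ (w i) = 0 := fun i hd => by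
    obtain ⟨τ, hτ, e⟩ := exists_ine (hy i) hp hQ (hN i).ne ((hN i).val p hp hd)
    obtain ⟨k, e1, e2⟩ := h i τ (iz τ hτ)
    exact onInv_ne _ _ _ hτ (fun c => e (by rw [e1, (jz k).1 c, one_mul])) e2
  have e1 : ∀ i, ¬ (p : ℤ) ∣ N i → ∀ τ ∈ Q.inertia (M ≃ₐ[ℚ] M), V.ρ τ (w i) = w i :=
    fun i hd τ hτ => fix i τ (iz τ hτ) (iy i hd τ hτ)
  have e2 : ∀ i, (p : ℤ) ∣ N (o i) ↔ (p : ℤ) ∣ N i := by
    have k : ∀ i, (p : ℤ) ∣ N (o i) → (p : ℤ) ∣ N i := fun i hd => by_contra fun k => by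
      obtain ⟨τ, hτ, e⟩ := exists_ine (hy _) hp hQ (hN _).ne ((hN _).val p hp hd)
      have e' := ho i τ
      rw [map_mul, iy i k τ hτ] at e'
      exact e (mul_left_cancel₀ (y0 i) e')
    exact fun i => ⟨k i, fun e => k _ (by rwa [oo i])⟩
  simp only [lf, (hN _).lev hp, h4, false_or]
  rcases (by omega : p % 3 = 1 ∨ p % 3 = 2) with c | c
  swap
  · have c0 : ∀ b, cnb b p = p := fun b => cnb_eq hp (.inl (by omega))
    rw [QB.eulN_diag w (θ := 0) (η := fun i => if (p : ℤ) ∣ N i then 0 else 1)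
      (fun i => by simp [c0]) (fun i => ?_) h4]
    · exact Finset.prod_congr rfl fun i _ => by split_ifs <;> simp [c0]
    split_ifs with hd
    · rw [e0 i hd, map_zero, zero_smul]
    · rw [onInv_fix _ _ _ (e1 i hd), onInv_fix _ _ _ fun τ hτ => ?_, ← Module.End.mul_apply,
        ← map_mul, fix i _ (frob_sq (z_six hζ) hp hQ h1 c hφ) (frob_sq (hy i) hp hQ hd c hφ),
        one_smul]
      rw [← Module.End.mul_apply, ← map_mul, show τ * φ = φ * (φ⁻¹ * τ * φ) by group, map_mul,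
        Module.End.mul_apply, e1 i hd _ (QB.ine_conj hφ hτ)]
  replace hb : ¬ (p : ℤ) ∣ B := fun k => hb (.inr (by rwa [if_neg (by omega)]))
  obtain ⟨z0, r, X, hq⟩ := exists_sx hp c
  obtain ⟨z, hz⟩ : ∃ z, z = star (X B) * z0 := ⟨_, rfl⟩
  have hz' : star z = X B * star z0 := by rw [hz, star_mul', star_star]
  obtain ⟨ε, h6, h7⟩ := frob_chi hq hp c hζ hQ hφ
  have h8 : toC ε ^ 2 = toC ε - 1 := by rw [← map_pow, h6, map_sub, map_one]
  choose k k1 k2 using fun i => h i φ (frob_z hζ hp hQ c hφ)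
  have k3 : ∀ i, 6 ∣ k i + k (o i) := fun i => by
    have e := ho i φ
    rw [map_mul, k1, k1, mul_mul_mul_comm, ← pow_add] at e
    exact ((prim6 hζ).pow_eq_one_iff_dvd _).1
      (mul_right_cancel₀ (mul_ne_zero (y0 _) (y0 _)) (e.trans (one_mul _).symm))
  have k4 : ∀ i, j ^ k i * j ^ k (o i) = 1 := fun i => by
    rw [← pow_add, ((prim6 hj).pow_eq_one_iff_dvd _).2 (k3 i)]
  have k5 : ∀ i, star (ε ^ k i) = ε ^ k (o i) := fun i => by
    have e0 : ∀ n, 6 ∣ n → ε ^ n = 1 := fun n e => CL.toC_inj (by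
      rw [map_pow, map_one, ((prim6 h8).pow_eq_one_iff_dvd _).2 e])
    rw [← mul_one (star _), ← e0 _ (k3 i), pow_add, ← mul_assoc, mul_comm (star _),
      star_unit (n := 6) (by norm_num) (by rw [← pow_mul, e0 _ (dvd_mul_left ..)]), one_mul]
  have k6 : ∀ i, ¬ (p : ℤ) ∣ N i → (p : ℂ) - cnb (B * N i) p =
      toC ε ^ k (o i) * toC z + toC ε ^ k i * toC (star z) := fun i hd => by
    have e := hq.count (B * N i) fun k => (hP.dvd_or_dvd k).elim hb hd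
    rw [hq.mul, h7 _ _ _ hd (hy i) (k1 i), star_mul', k5, mul_comm (star _), mul_assoc, ← hz,
      mul_comm (X B), mul_assoc, ← hz'] at e
    simpa using congrArg CL.toC e
  have k7 : (((p : ℤ) - cnb B p : ℤ) : ℂ) = toC z + toC (star z) := by
    have e := hq.count B hb
    rw [← hz, ← hz'] at e
    simpa using congrArg CL.toC e
  have k8 : (p : ℂ) = toC z * toC (star z) := by
    rw [← map_mul, hz', hz, mul_mul_mul_comm, mul_comm (star _), hq.norm,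
      star_unit (by norm_num) (hq.six B hb), one_mul, map_natCast]
  obtain ⟨θ, t1, t2⟩ : ∃ θ : κ → ℂ, (∀ i, (p : ℤ) ∣ N i → θ i = 0) ∧
      ∀ i, ¬ (p : ℤ) ∣ N i → θ i = j ^ k i :=
    ⟨fun i => if (p : ℤ) ∣ N i then 0 else j ^ k i, fun _ e => if_pos e, fun _ e => if_neg e⟩
  have t3 : ∀ i, onInv V (Q.inertia (M ≃ₐ[ℚ] M)) φ (w i) = θ i • w i := fun i => by
    by_cases hd : (p : ℤ) ∣ N i
    · rw [e0 i hd, t1 i hd, zero_smul]
    · rw [onInv_fix _ _ _ (e1 i hd), k2, t2 i hd]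
  rw [QB.eulN_diag w (θ := θ) (η := fun i => θ i * θ i)
    (fun i => by rw [t3, smul_smul]) (fun i => by rw [t3, map_smul, t3, smul_smul]) h4]
  simp only [k7, QB.cpow_eq hp]
  generalize (p : ℂ) ^ (-s) = X
  generalize toC (star z) = z' at k6 k8 ⊢
  generalize toC z = z at k6 k8 ⊢
  have k9 := fun f : κ → ℂ => Equiv.prod_comp oo.toPerm f
  have e3 : ∏ i, (1 - (z + z') * θ i * X + θ i * θ i * (p * X ^ 2)) =
      (∏ i, (1 - z * θ i * X)) * ∏ i, (1 - z' * θ i * X) := by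
    rw [← Finset.prod_mul_distrib, k8]
    exact Finset.prod_congr rfl fun i _ => by ring
  rw [e3]
  rcases mul_eq_zero.1 (by linear_combination h8 - hj :
    (toC ε - j) * (toC ε - (1 - j)) = 0) with e | e <;> rw [sub_eq_zero] at e
  · rw [← k9 fun i => 1 - z * θ i * X, ← Finset.prod_mul_distrib]
    refine Finset.prod_congr rfl fun i _ => ?_
    rw [Function.Involutive.coe_toPerm]
    split_ifs with hd
    · simp [t1 i hd, t1 _ ((e2 i).2 hd)]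
    · rw [t2 i hd, t2 _ (mt (e2 i).1 hd), k6 i hd, e, k8]
      linear_combination z * z' * X ^ 2 * k4 i
  · have e4 : ∀ i, toC ε ^ k i = j ^ k (o i) := fun i => by
      rw [← mul_one (_ ^ _), ← k4 i, ← mul_assoc, ← mul_pow, e,
        show (1 - j) * j = 1 by linear_combination -hj, one_pow, one_mul]
    rw [← k9 fun i => 1 - z' * θ i * X, ← Finset.prod_mul_distrib]
    refine Finset.prod_congr rfl fun i _ => ?_
    rw [Function.Involutive.coe_toPerm]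
    split_ifs with hd
    · simp [t1 i hd, t1 _ ((e2 i).2 hd)]
    · rw [t2 i hd, t2 _ (mt (e2 i).1 hd), k6 i hd, e4, e4, oo i, k8]
      linear_combination z * z' * X ^ 2 * k4 i

/-- The function `F` is given by the complete Euler product of the curve. -/
def IsF (b : ℤ) (F : ℂ → ℂ) : Prop := ∀ s : ℂ, (3 : ℝ) / 2 < s.re →
  HasProd (fun p : ℕ => if p.Prime then (lf b p s)⁻¹ else 1) (F s)

theorem isLN {L : Type} [Field L] [Algebra L ℂ] {j : L} {V : Rep L (M ≃ₐ[ℚ] M)}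
    (w : Module.Basis κ L V)
    (hw : ∀ (i) (σ : M ≃ₐ[ℚ] M), σ ζ = ζ → ∃ k : ℕ, σ (y i) = ζ ^ k * y i ∧ V.ρ σ (w i) = j ^ k • w i)
    (hζ : ζ ^ 2 = ζ - 1) (hj : j ^ 2 = j - 1) (hy : ∀ i, y i ^ 6 = N i) (hN : ∀ i, Ok B (N i))
    (oo : Function.Involutive o) (ho : ∀ (i) (σ : M ≃ₐ[ℚ] M), σ (y i * y (o i)) = y i * y (o i))
    {F : κ → ℂ → ℂ} (h : ∀ i, IsF (B * N i) (F i)) :
    IsLN (lev B) (ac B) (bc ℂ V) (∏ i, F i) := by
  intro Q φ hQ s hs'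
  let w' : Module.Basis κ ℂ (bc ℂ V) := w.baseChange ℂ
  have e5 : ∀ i, w' i = (1 : ℂ) ⊗ₜ[L] w i := fun i => w.baseChange_apply ℂ i
  rw [Finset.prod_apply]
  convert hasProd_prod (s := Finset.univ) fun i _ => h i s hs' using 2 with p
  by_cases hp : p.Prime
  · obtain ⟨q1, q2, q3⟩ := hQ p hp
    rw [if_pos hp, ac_eq, eul_gen w' (j := algebraMap L ℂ j) (fun i σ k => ?_) hζ
      (by rw [← map_pow, hj, map_sub, map_one]) hy hN oo ho hp q2 q3, ← Finset.prod_inv_distrib]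
    · simp only [if_pos hp]
    · obtain ⟨k, e3, e4⟩ := hw i σ k
      refine ⟨k, e3, ?_⟩
      rw [e5, bc_tmul, e4, TensorProduct.tmul_smul, ← map_pow]
      exact (algebraMap_smul ℂ (j ^ k) ((1 : ℂ) ⊗ₜ[L] w i)).symm
  · simp [hp]

end Pool.Agent.Lib.MP_60ff09_nt.CB
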