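import Pool.Agent.Lib.MP_60ff09_nt.CB.Pts
import Pool.Agent.Lib.MP_60ff09_nt.QB.GEul
import Pool.Agent.Lib.MP_696deb_nt.CQ.A

/-! Frobenius elements and inertia groups acting on sixth roots of integers, and point counts. -/

set_option autoImplicit false

open scoped Classical NNReal Pointwise
open NumberField Pool.Agent.Lib.MP_696deb_nt
open Pool.Agent.Lib.MP_696deb_nt.B2 (Qbar Zbar Plc b2aP)
open Pool.Agent.Lib.MP_696deb_nt.CL (O)
open Pool.Agent.Lib.MP_696deb_nt.CQ (cnb)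

namespace Pool.Agent.Lib.MP_60ff09_nt.CB

open V4

theorem root_eq {R S : Type} [CommRing R] [IsDomain R] [CommRing S] (f : R →+* S) {u v : R} {n : ℕ}
    (h : u ^ n = v ^ n) (e : f u = f v) (hn : n * f v ^ (n - 1) ≠ 0) : u = v := by
  by_contra k
  have h1 := geom_sum₂_mul u v n
  rw [h, sub_self, mul_eq_zero, or_iff_left (sub_ne_zero.2 k)] at h1
  have h2 := congrArg f h1
  simp only [map_sum, map_mul, map_pow, map_zero, e, geom_sum₂_self] at h2
  exact hn h2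

variable {M : Type} [Field M] [NumberField M] {y ζ : M} {N b : ℤ} {p n : ℕ} {Q : Ideal (𝓞 M)}
  {σ τ φ : M ≃ₐ[ℚ] M}

omit [NumberField M] in
theorem exists_r (hn : 0 < n) (hy : y ^ n = N) : ∃ Y : 𝓞 M, (Y : M) = y ∧ Y ^ n = N := by
  have : IsIntegral ℤ y := IsIntegral.of_pow hn (hy ▸ isIntegral_algebraMap (x := N))
  exact ⟨⟨y, this⟩, rfl, RingOfIntegers.ext (by simpa using hy)⟩

theorem fix_of_mem {Y : 𝓞 M} (hn : 0 < n) (hY : Y ^ n = N) (hp : p.Prime) [Q.IsPrime]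
    (hQ : (p : 𝓞 M) ∈ Q) (hd : ¬ (p : ℤ) ∣ n * N) (h : σ • Y - Y ∈ Q) : σ Y = Y := by
  refine congrArg (fun x : 𝓞 M => (x : M)) (root_eq (Ideal.Quotient.mk Q) (u := σ • Y) (v := Y)
    (n := n) ?_ (Ideal.Quotient.eq.2 h) fun k => hd ((int_mem hp hQ).1 ?_))
  · rw [← smul_pow', hY]
    exact map_intCast (MulSemiringAction.toRingHom _ _ σ) N
  · rw [← Ideal.Quotient.eq_zero_iff_mem, Int.cast_mul, ← hY, Int.cast_natCast, map_mul, map_pow,
      map_natCast, ← Nat.sub_add_cancel hn, pow_succ, ← mul_assoc, Nat.sub_add_cancel hn, k,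
      zero_mul]

theorem fix_of_two (h0 : y ≠ 0) (h2 : σ (y ^ 2) = y ^ 2) (h3 : σ (y ^ 3) = y ^ 3) : σ y = y := by
  rw [pow_succ, map_mul, h2] at h3
  exact mul_left_cancel₀ (pow_ne_zero 2 h0) h3

omit [NumberField M] in
theorem cb_eq (hy : y ^ 6 = N) : (y ^ 2) ^ 3 = N := by rw [← pow_mul, hy]

omit [NumberField M] in
theorem sq_eq (hy : y ^ 6 = N) : (y ^ 3) ^ 2 = N := by rw [← pow_mul, hy]

theorem ine_six (hy : y ^ 6 = N) (hp : p.Prime) [Q.IsPrime] (hQ : (p : 𝓞 M) ∈ Q)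
    (hd : ¬ (p : ℤ) ∣ 3 * N) (h2 : p = 2 → N % 4 = 1) (hτ : τ ∈ Q.inertia (M ≃ₐ[ℚ] M)) :
    τ y = y := by
  have h1 : ¬ (p : ℤ) ∣ N := fun k => hd (k.mul_left 3)
  refine fix_of_two (root_ne (fun k : N = 0 => h1 (k ▸ dvd_zero _)) hy) ?_ ?_
  · obtain ⟨Y, e, hY⟩ := exists_r three_pos (cb_eq hy)
    exact e ▸ fix_of_mem three_pos hY hp hQ hd (hτ Y)
  by_cases k : p = 2
  · exact ine_fix (sq_eq hy) (h2 k) hp hQ h1 hτ
  obtain ⟨Y, e, hY⟩ := exists_r two_pos (sq_eq hy)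
  exact e ▸ fix_of_mem two_pos hY hp hQ (fun c => ((Nat.prime_iff_prime_int.1 hp).dvd_or_dvd c).elim
    (fun c => k ((Nat.prime_dvd_prime_iff_eq hp Nat.prime_two).1 (by exact_mod_cast c))) h1) (hτ Y)

theorem nd_three (hp : p.Prime) (h : p % 3 ≠ 0) (hd : ¬ (p : ℤ) ∣ N) : ¬ (p : ℤ) ∣ 3 * N :=
  fun c => ((Nat.prime_iff_prime_int.1 hp).dvd_or_dvd c).elim (fun c => h (by
    rw [(Nat.prime_dvd_prime_iff_eq hp Nat.prime_three).1 (by exact_mod_cast c)])) hd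

theorem frob_sq (hy : y ^ 6 = N) (hp : p.Prime) [Q.IsPrime] (hQ : (p : 𝓞 M) ∈ Q)
    (hd : ¬ (p : ℤ) ∣ N) (h3 : p % 3 = 2) (hφ : IsArithFrobAt ℤ φ Q) : (φ * φ) y = y := by
  refine fix_of_two (root_ne (fun k : N = 0 => hd (k ▸ dvd_zero _)) hy) ?_ ?_
  swap
  · rcases pm_of_sq (sq_eq hy) φ with k | k <;> simp only [AlgEquiv.mul_apply, k, map_neg, neg_neg]
  obtain ⟨Y, e, hY⟩ := exists_r three_pos (cb_eq hy)
  have := Fact.mk hp
  have hf := QB.frob_mem hp hQ hφ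
  have h1 : (φ • Y) ^ p - (Y ^ p) ^ p ∈ Q := Q.mem_of_dvd (sub_dvd_pow_sub_pow _ _ p) (hf Y)
  have h2 : (p : ℤ) ∣ (N ^ (p - 1)) ^ (p / 3 + 1) - 1 := by
    rw [← ZMod.intCast_zmod_eq_zero_iff_dvd]
    push_cast
    rw [ZMod.pow_card_sub_one_eq_one, one_pow, sub_self]
    exact fun k => hd ((ZMod.intCast_zmod_eq_zero_iff_dvd N p).1 k)
  refine e ▸ fix_of_mem three_pos hY hp hQ (nd_three hp (by omega) hd) ?_
  convert add_mem (add_mem (hf (φ • Y)) h1) (Q.mul_mem_left Y ((int_mem hp hQ).2 h2)) using 1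
  obtain ⟨m, rfl⟩ : ∃ m, p = 3 * m + 2 := ⟨p / 3, by omega⟩
  rw [mul_smul, show (3 * m + 2) / 3 = m by omega, show 3 * m + 2 - 1 = 3 * m + 1 from rfl]
  push_cast
  rw [← hY]
  ring

theorem z_six (h : ζ ^ 2 = ζ - 1) : ζ ^ 6 = (1 : ℤ) := by exact_mod_cast (prim6 h).pow_eq_one

theorem frob_z (h : ζ ^ 2 = ζ - 1) (hp : p.Prime) [Q.IsPrime] (hQ : (p : 𝓞 M) ∈ Q)
    (h1 : p % 3 = 1) (hφ : IsArithFrobAt ℤ φ Q) : φ ζ = ζ := by
  obtain ⟨Y, e, hY⟩ := exists_r three_pos (cb_eq (z_six h))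
  have k := fix_of_mem (σ := φ) three_pos hY hp hQ (nd_three hp (by omega) fun k => by
    have := Int.le_of_dvd one_pos k
    have := hp.two_le
    omega) (by
    convert QB.frob_mem hp hQ hφ Y using 2
    conv_rhs => rw [← Nat.div_add_mod p 3, h1, pow_add, pow_mul, hY, Int.cast_one, one_pow, one_mul,
      pow_one])
  rw [e, h, map_sub, map_one] at k
  exact sub_left_injective k

/-- The sextic residue character and the number of points. -/
structure Sx (p : ℕ) (z : O) (ρ : O →+* ZMod p) (X : ℤ → O) : Prop where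
  norm : z * star z = p
  mul : ∀ a b, X (a * b) = X a * X b
  six : ∀ b, ¬ (p : ℤ) ∣ b → X b ^ 6 = 1
  spec : ∀ b, ¬ (p : ℤ) ∣ b → ρ (X b) = (b : ZMod p) ^ (p / 6)
  count : ∀ b, ¬ (p : ℤ) ∣ b → (((p : ℤ) - cnb b p : ℤ) : O) = star (X b) * z + X b * star z

theorem star_unit {u : O} (hn : n ≠ 0) (h : u ^ n = 1) : u * star u = 1 := by
  have e : CL.nm u ^ n = 1 := by rw [CL.nm_eq, ← map_pow, h, map_one]
  rw [CL.mul_star_self, (pow_eq_one_iff_of_nonneg (CL.nm_nonneg u) hn).1 e, Int.cast_one]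

theorem six_mod (hp : p.Prime) (h : p % 3 = 1) : p % 6 = 1 := by
  have := hp.eq_two_or_odd
  omega

theorem exists_sx (hp : p.Prime) (h : p % 3 = 1) : ∃ z ρ X, Sx p z ρ X := by
  have := Fact.mk hp
  have h6 := six_mod hp h
  obtain ⟨z, ρ, χ, q⟩ := CL.exists_qc h
  have n0 : ∀ b : ℤ, ¬ (p : ℤ) ∣ b → (b : ZMod p) ≠ 0 := fun b e k =>
    e ((ZMod.intCast_zmod_eq_zero_iff_dvd b p).1 k)
  have j2 : ∀ b : ℤ, ¬ (p : ℤ) ∣ b → ((legendreSym p b : ℤ) : O) ^ 2 = 1 := fun b e => by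
    rw [← Int.cast_pow, legendreSym.sq_one p (n0 b e), Int.cast_one]
  have d : ∀ c : ℤ, c ∣ 6 → ¬ (p : ℤ) ∣ c := fun c e k => by
    have := Int.le_of_dvd (by norm_num) (k.trans e)
    have := hp.two_le
    omega
  have hP := Nat.prime_iff_prime_int.1 hp
  refine ⟨legendreSym p (-3) * star (χ (2 : ℤ)) * z, ρ, fun b => legendreSym p b * χ b ^ 2, ?_,
    fun a b => ?_, fun b e => ?_, fun b e => ?_, fun b e => ?_⟩
  · have e1 := star_unit three_ne_zero (q.cube _ (n0 2 (d 2 (by norm_num))))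
    have e2 := CL.mul_star_self z
    rw [q.norm, Int.cast_natCast] at e2
    rw [star_mul', star_mul', star_star, star_intCast]
    linear_combination (star (χ (2 : ℤ)) * χ (2 : ℤ) * p) * j2 (-3) (d _ (by norm_num)) +
      (p : O) * e1 + (legendreSym p (-3) : O) ^ 2 * star (χ (2 : ℤ)) * χ (2 : ℤ) * e2
  · rw [legendreSym.mul, Int.cast_mul, Int.cast_mul, map_mul]
    ring
  · rw [mul_pow, ← pow_mul, show 2 * 6 = 3 * 4 from rfl, pow_mul, q.cube _ (n0 b e),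
      show 6 = 2 * 3 from rfl, pow_mul, j2 b e, one_pow, one_pow, one_mul]
  · rw [map_mul, map_pow, q.spec, map_intCast, legendreSym.eq_pow, ← pow_mul, ← pow_add,
      show p / 2 + p / 3 * 2 = p - 1 + p / 6 by omega, pow_add,
      ZMod.pow_card_sub_one_eq_one (n0 b e), one_mul]
  · have e1 := CQ.count_tw (p := p) (by omega) (b := b) (D := -3 * b) (n := 2 * b.natAbs ^ 2)
      (by push_cast; rw [sq_abs]; ring) fun k => (hP.dvd_or_dvd k).elim (d _ (by norm_num)) e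
    have e2 := q.count (n := 2 * b.natAbs ^ 2) fun k => (hp.dvd_mul.1 k).elim
      (fun k => d 2 (by norm_num) (by exact_mod_cast k))
      fun k => e (Int.natCast_dvd.2 (hp.dvd_of_dvd_pow k))
    have e3 : ((2 * b.natAbs ^ 2 : ℕ) : ZMod p) = (2 : ℤ) * (b : ZMod p) ^ 2 := by
      rw [← Int.cast_natCast]
      push_cast
      rw [← Int.cast_pow, sq_abs, Int.cast_pow]
    rw [e1, Int.cast_mul, e2, e3, ← jacobiSym.legendreSym.to_jacobiSym, legendreSym.mul]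
    simp only [map_mul, map_pow, star_mul', star_star, star_intCast, Int.cast_mul, star_pow]
    ring

/-- The Frobenius element and the sextic residue character. -/
theorem frob_chi {z : O} {r : O →+* ZMod p} {X : ℤ → O} (hq : Sx p z r X) (hp : p.Prime)
    (h : p % 3 = 1) (hζ : ζ ^ 2 = ζ - 1) [Q.IsPrime] (hQ : (p : 𝓞 M) ∈ Q)
    (hφ : IsArithFrobAt ℤ φ Q) : ∃ ε : O, ε ^ 2 = ε - 1 ∧ ∀ (N : ℤ) (y : M) (k : ℕ),
      ¬ (p : ℤ) ∣ N → y ^ 6 = N → φ y = ζ ^ k * y → X N = ε ^ k := by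
  have := Fact.mk hp
  have h6 := six_mod hp h
  obtain ⟨J, rfl, -⟩ := exists_r (by norm_num) (z_six hζ)
  have hJ : J ^ 2 = J - 1 := RingOfIntegers.ext (by simpa using hζ)
  obtain ⟨ε, e, h1, h2, h3⟩ : ∃ (ε : O) (e : ℤ), ε ^ 2 = ε - 1 ∧ (e : ZMod p) = r ε ∧
      J - e ∈ Q := by
    obtain ⟨s, hs⟩ := ZMod.intCast_surjective (r (1 + CL.om))
    have h0 : (1 + CL.om) ^ 2 = (1 + CL.om) - 1 := by decide
    have h4 : (p : ℤ) ∣ -(s ^ 2 - (s - 1)) := by
      rw [← ZMod.intCast_zmod_eq_zero_iff_dvd]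
      push_cast
      rw [hs, ← map_pow, h0]
      simp
    rcases Ideal.IsPrime.mem_or_mem ‹_› (show (J - s) * (J - (1 - s : ℤ)) ∈ Q by
      convert (int_mem hp hQ).2 h4 using 1
      push_cast
      linear_combination hJ) with k | k
    · exact ⟨_, s, h0, hs, k⟩
    · exact ⟨1 - (1 + CL.om), 1 - s, by decide, by rw [map_sub, map_one, ← hs]; push_cast; rfl, k⟩
  refine ⟨ε, h1, fun N y k hd hy e1 => ?_⟩
  obtain ⟨Y, rfl, hY⟩ := exists_r (by norm_num) hy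
  have e2 : φ • Y = J ^ k * Y := RingOfIntegers.ext (e1.trans (by simp))
  have e3 : Y * ((e ^ k - N ^ (p / 6) : ℤ) : 𝓞 M) ∈ Q := by
    convert sub_mem (QB.frob_mem hp hQ hφ Y)
      (Q.mul_mem_left Y (Q.mem_of_dvd (sub_dvd_pow_sub_pow _ _ k) h3)) using 1
    have e4 : Y ^ p = Y * (N : 𝓞 M) ^ (p / 6) := by
      conv_lhs => rw [← Nat.div_add_mod p 6, h6, pow_add, pow_mul, hY, pow_one, mul_comm]
    rw [e2, e4]
    push_cast
    ring
  have e5 := (int_mem hp hQ).1 ((Ideal.IsPrime.mem_or_mem ‹_› e3).resolve_left fun c =>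
    hd ((int_mem hp hQ).1 (hY ▸ Q.pow_mem_of_mem c 6 (by norm_num))))
  rw [← ZMod.intCast_zmod_eq_zero_iff_dvd] at e5
  push_cast at e5
  have e6 : (ε ^ k) ^ 6 = 1 := by
    rw [← pow_mul, mul_comm, pow_mul, show ε ^ 6 = 1 by
      linear_combination (ε ^ 4 + ε ^ 3 - ε - 1) * h1, one_pow]
  refine root_eq r (n := 6) (by rw [hq.six _ hd, e6]) (by
    rw [hq.spec _ hd, map_pow, ← h2]
    linear_combination -e5) fun c => ?_
  have e7 : r (ε ^ k) ^ 6 = 1 := by rw [← map_pow, e6, map_one]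
  have e8 : ((6 : ℕ) : ZMod p) = 0 := by linear_combination r (ε ^ k) * c - ((6 : ℕ) : ZMod p) * e7
  have := Nat.le_of_dvd (by norm_num) ((ZMod.natCast_eq_zero_iff 6 p).1 e8)
  have := hp.two_le
  omega

theorem exists_ine [IsGalois ℚ M] (hy : y ^ 6 = N) (hp : p.Prime) [Q.IsPrime]
    (hQ : (p : 𝓞 M) ∈ Q) (N0 : N ≠ 0) (hN : ¬ 6 ∣ padicValInt p N) :
    ∃ τ ∈ Q.inertia (M ≃ₐ[ℚ] M), τ y ≠ y := by
  let f : M →ₐ[ℚ] Qbar := IsAlgClosed.lift
  let _ := f.toRingHom.toAlgebra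
  have : IsScalarTower ℚ M Qbar := .of_algHom f
  let F : 𝓞 M →+* Zbar := ((algebraMap M Qbar).comp (algebraMap _ M)).codRestrict
    (integralClosure ℤ Qbar) fun a => map_isIntegral_int (algebraMap M Qbar) a.isIntegral_coe
  let _ := F.toAlgebra
  have : Algebra.IsIntegral (𝓞 M) Zbar := ⟨RingHom.IsIntegral.tower_top (Int.castRingHom _) F (by
    rw [Subsingleton.elim (RingHom.comp _ _) (algebraMap ℤ Zbar)]
    exact Algebra.IsIntegral.isIntegral)⟩
  have : Q.IsMaximal := Ideal.IsPrime.isMaximal ‹_› fun e => by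
    rw [e, Ideal.mem_bot, Nat.cast_eq_zero] at hQ
    exact hp.ne_zero hQ
  obtain ⟨P, k1, k2⟩ := Ideal.exists_ideal_over_maximal_of_isIntegral (S := Zbar) Q fun a ha => by
    have e : algebraMap M Qbar a = 0 := congrArg Subtype.val (RingHom.mem_ker.1 ha)
    rw [show a = 0 by simpa using e]
    exact zero_mem _
  obtain ⟨w, rfl⟩ := B2.b2a_surj P k1
  have k3 : ∀ a : 𝓞 M, a ∈ Q ↔ w.V (algebraMap M Qbar a) < 1 := fun a => by
    rw [← k2]
    rfl
  obtain rfl : w.p = p := by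
    have e := (k3 _).1 hQ
    rw [RingOfIntegers.coe_eq_algebraMap, map_natCast, map_natCast, ← Int.cast_natCast] at e
    exact (Nat.prime_dvd_prime_iff_eq w.prime hp).1 (Int.natCast_dvd_natCast.1 (by_contra fun k =>
      e.ne (w.V_int_eq_one.2 k)))
  by_contra! k
  obtain ⟨n, hn⟩ := B2.V_of_fx_ine (w := w) (x := algebraMap M Qbar y) (fun σ hσ => by
    rw [← σ.restrictNormal_commutes M, k _ fun a => (k3 _).2 ?_]
    have e := hσ.2 _ (w.V_le_one_of_isIntegral (F a).2)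
    rw [show ((F a : Zbar) : Qbar) = algebraMap M Qbar a from rfl,
      ← σ.restrictNormal_commutes M, ← map_sub] at e
    exact e) ((map_ne_zero _).2 (root_ne N0 hy))
  have e := congrArg (fun x => w.V (algebraMap M Qbar x)) hy
  simp only [map_pow, map_intCast] at e
  rw [hn, B2.b2a_V_int w N0, inv_pow, inv_inj, ← zpow_natCast, ← zpow_mul, ← zpow_natCast,
    zpow_right_inj₀ (zero_lt_one.trans (B2.b2a_one_lt w)) (B2.b2a_one_lt w).ne'] at e
  omega

theorem cnb_eq (hp : p.Prime) (h : p % 3 ≠ 1 ∨ (p : ℤ) ∣ b) : cnb b p = p := by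
  have := Fact.mk hp
  rcases h with h | h
  swap
  · refine Eq.trans ?_ (QB.cnt_bad hp (h.mul_left 2))
    simp [cnb, QF.cnt, (ZMod.intCast_zmod_eq_zero_iff_dvd _ p).2 h]
  have c : Function.Bijective fun x : ZMod p => x ^ 3 :=
    Finite.injective_iff_bijective.1 fun x y e => by
      by_cases k : y = 0
      · simpa [k] using e
      have e1 : (x / y) ^ 3 = 1 := by rw [div_pow, show x ^ 3 = y ^ 3 from e, div_self (by simp [k])]
      have x0 : x / y ≠ 0 := fun c => by simp [c] at e1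
      have e2 := Nat.eq_one_of_dvd_coprimes (Nat.prime_three.coprime_iff_not_dvd.2 (by
        have := hp.two_le
        omega)) (orderOf_dvd_of_pow_eq_one e1) (ZMod.orderOf_dvd_card_sub_one x0)
      exact (div_eq_one_iff_eq k).1 (orderOf_eq_one_iff.1 e2)
  refine (Nat.card_eq_of_bijective (fun q => q.1.2) ⟨fun q q' e => Subtype.ext (Prod.ext (c.1 ?_) e),
    fun y => ?_⟩).trans (Nat.card_zmod p)
  · have e1 := q.2
    have e2 := q'.2
    rw [show q.1.2 = q'.1.2 from e, e2] at e1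
    simpa using e1.symm
  · obtain ⟨x, hx⟩ := c.2 (y ^ 2 - b)
    exact ⟨⟨(x, y), by simp [show x ^ 3 = _ from hx]⟩, rfl⟩

end Pool.Agent.Lib.MP_60ff09_nt.CB
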