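import Pool.Agent.Lib.MP_60ff09_nt.CB.Pts

/-! The space of equivariant maps and the rational points of the four sextic twists. -/

set_option autoImplicit false

open scoped Classical TensorProduct
open CategoryTheory WeierstrassCurve WeierstrassCurve.Affine Pool.Agent.Lib.MP_696deb_nt

namespace Pool.Agent.Lib.MP_60ff09_nt.CB

open V4 V6

variable {M L : Type} [Field M] [NumberField M] [Field L] {B N : ℤ} {ζ y : M} {j e : L}
  {τ : M ≃ₐ[ℚ] M}

/-- The projector. -/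
noncomputable def pr (B : ℤ) (ζ : M) (j e : L) : Module.End L (L ⊗[ℤ] P0 M B) :=
  e • (TL L B (RingHom.id M) ζ - j • LinearMap.id)

omit [NumberField M] in
theorem pr_apply (x : L ⊗[ℤ] P0 M B) :
    pr B ζ j e x = e • (TL L B (RingHom.id M) ζ x - j • x) := rfl

theorem pr_eig (hB : B ≠ 0) (h : ζ ^ 2 = ζ - 1) (hj : j ^ 2 = j - 1) (x : L ⊗[ℤ] P0 M B) :
    TL L B (RingHom.id M) ζ (pr B ζ j e x) = (1 - j) • pr B ζ j e x := by
  rw [pr_apply, map_smul, map_sub, map_smul, TL_rel hB h]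
  linear_combination (norm := module) (-e * hj) • x

theorem pr_pr (hB : B ≠ 0) (h : ζ ^ 2 = ζ - 1) (hj : j ^ 2 = j - 1) (he : e * (1 - 2 * j) = 1)
    (x : L ⊗[ℤ] P0 M B) : pr B ζ j e (pr B ζ j e x) = pr B ζ j e x := by
  rw [pr_apply (pr B ζ j e x), pr_eig hB h hj]
  linear_combination (norm := module) he • pr B ζ j e x

theorem two (h : ζ ^ 2 = ζ - 1) (hτ : τ ζ = 1 - ζ) : Two (fun σ : M ≃ₐ[ℚ] M => σ ζ = ζ) τ := by
  have h1 : τ.symm ζ = 1 - ζ := by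
    rw [AlgEquiv.symm_apply_eq, map_sub, map_one, hτ, sub_sub_cancel]
  refine ⟨by simp [hτ], fun σ k => by simp [hτ, k, h1], fun σ => ?_⟩
  have e := congrArg σ h
  rw [map_pow, map_sub, map_one] at e
  refine (mul_eq_zero.1 (by linear_combination e - h : (σ ζ - ζ) * (σ ζ - (1 - ζ)) = 0)).imp
    sub_eq_zero.1 fun k => by simp [sub_eq_zero.1 k, h1]

/-- The twisted action on points. -/
noncomputable def tw (B : ℤ) (y : M) (σ : M ≃ₐ[ℚ] M) : P0 M B →+ P0 M B :=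
  vm B (σ : M →+* M) (σ y / y)

/-- The twisted action after extension of scalars. -/
noncomputable def TW (L : Type) [Field L] (B : ℤ) (y : M) (σ : M ≃ₐ[ℚ] M) :
    Module.End L (L ⊗[ℤ] P0 M B) := TL L B (σ : M →+* M) (σ y / y)

theorem sp (hB : B ≠ 0) (h : ζ ^ 2 = ζ - 1) (he : e * (1 - 2 * j) = 1) (hτ : τ ζ = 1 - ζ)
    (hN : N ≠ 0) (hy : y ^ 6 = N) : Sp (fun σ : M ≃ₐ[ℚ] M => σ ζ = ζ) τ (pr B ζ j e) (TW L B y) := by
  have h6 := (prim6 h).pow_eq_one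
  have u6 := tw_six hN hy
  refine ⟨fun σ σ' => TL_ext (f := TW L B y (σ * σ')) (g := TW L B y σ ∘ₗ TW L B y σ') fun l P =>
    congrArg (l ⊗ₜ[ℤ] ·) (tw_mul hN hy σ σ' P), fun σ k x => ?_, fun x => ?_⟩
  · simp only [pr_apply, map_smul, map_sub, TW]
    rw [TL_TL h6 (u6 σ) (k := σ) (fun _ => rfl) rfl,
      TL_TL (u6 σ) h6 (k := σ) (fun _ => rfl) (a := ζ * (σ y / y)) (by simp [k, mul_comm])]
    rfl
  · have e1 : ∀ x, TL L B (RingHom.id M) ζ (TL L B τ (τ y / y) (TL L B (RingHom.id M) ζ x)) =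
        TL L B τ (τ y / y) x := fun x => by
      rw [TL_TL (u6 τ) h6 (k := τ) (fun _ => rfl) rfl, TL_TL h6 (by
        rw [mul_pow, ← map_pow, u6, h6, map_one, mul_one]) (k := τ) (fun _ => rfl) (a := τ y / y) (by
        rw [RingHom.id_apply, RingHom.coe_coe, hτ]
        linear_combination τ y / y * h)]
    have e2 := e1 (x - TL L B (RingHom.id M) ζ x)
    rw [map_sub (TL L B (RingHom.id M) ζ), TL_rel hB h, sub_sub_cancel] at e2
    simp only [pr_apply, TW, e2, map_smul, map_sub]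
    linear_combination (norm := module) he • TL L B τ (τ y / y) x

variable [CharZero L]

theorem exists_emb (L : Type) [Field L] [CharZero L] (B : ℤ) {H : Type} [Field H] [NumberField H]
    (f : H →ₐ[ℚ] M) (K : Subgroup (M ≃ₐ[ℚ] M)) (hK : ∀ x, (∃ x', f x' = x) ↔ ∀ σ ∈ K, σ x = x) :
    ∃ E : bc L (pts (Ec B) H) →ₗ[L] L ⊗[ℤ] P0 M B, Function.Injective E ∧
      (∀ (σ : M ≃ₐ[ℚ] M) (σ' : H ≃ₐ[ℚ] H), (∀ x, f (σ' x) = σ (f x)) →
        ∀ x, E ((bc L (pts (Ec B) H)).ρ σ' x) = TW L B 1 σ (E x)) ∧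
      ∀ x, x ∈ LinearMap.range E ↔ ∀ σ ∈ K, TW L B 1 σ x = x := by
  have h1 : (1 : M) ^ 6 = (1 : ℤ) := by simp
  have h : VC (f : H →+* M) ((Ec B).baseChange H) (W0 M B) (1 / 1) 0 0 0 := by
    refine ⟨by simp, ?_, ?_, ?_, ?_, ?_⟩ <;> simp [W0, Ec, WeierstrassCurve.baseChange]
  let E : bc L (pts (Ec B) H) →ₗ[L] L ⊗[ℤ] P0 M B := h.hom.toIntLinearMap.baseChange L
  refine ⟨E, Module.Flat.lTensor_preserves_injective_linearMap _ h.hom_injective,
    fun σ σ' k x => ?_, avg_range K (tw B 1) (tw_mul one_ne_zero h1) h.hom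
      (range_iff one_ne_zero h1 h K hK)⟩
  refine TensorProduct.induction_on (motive := fun x => x ∈ LinearMap.eqLocus
    (E ∘ₗ (bc L (pts (Ec B) H)).ρ σ') (TW L B 1 σ ∘ₗ E)) x (zero_mem _)
      (fun l P => congrArg (l ⊗ₜ[ℤ] ·) ?_) fun _ _ => add_mem
  change h.hom _ = vm B _ _ (h.hom P)
  rw [vm, dif_pos (tw_six one_ne_zero h1 σ)]
  rcases P with _ | ⟨x, y, n⟩
  · rfl
  · refine (Point.some.injEq ..).mpr ⟨?_, ?_⟩ <;> simp [k]

variable [IsGalois ℚ M]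

theorem exists_lin (B : ℤ) (V : Rep L (M ≃ₐ[ℚ] M)) :
    ∃ X : HomW (Ec B) V →ₗ[L] V →ₗ[L] L ⊗[ℤ] P0 M B, Function.Injective X ∧
      ∀ T, T ∈ LinearMap.range X ↔ ∀ (σ : M ≃ₐ[ℚ] M) x, T (V.ρ σ x) = TW L B 1 σ (T x) := by
  obtain ⟨E, inj, hE, sur⟩ := exists_emb L B (IntermediateField.fixedField V.ρ.ker).val V.ρ.ker
    fun x => ⟨by
      rintro ⟨x, rfl⟩ σ hσ
      exact x.2 ⟨σ, hσ⟩, fun k => ⟨⟨x, fun σ => k σ σ.2⟩, rfl⟩⟩
  replace hE := fun σ : M ≃ₐ[ℚ] M =>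
    hE σ (AlgEquiv.restrictNormalHom _ σ) fun x => σ.restrictNormal_commutes _ x
  refine ⟨{ toFun := fun φ => E ∘ₗ φ.hom.toLinearMap
            map_add' := fun φ ψ => LinearMap.ext fun x => map_add E (φ.hom x) (ψ.hom x)
            map_smul' := fun c φ => LinearMap.ext fun x => map_smul E c (φ.hom x) },
    fun φ ψ k => Rep.hom_ext (Representation.IntertwiningMap.ext (LinearMap.ext fun x =>
      inj (LinearMap.congr_fun k x))), fun T => ⟨?_, fun hT => ?_⟩⟩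
  · rintro ⟨φ, rfl⟩ σ x
    exact (congrArg E (Rep.hom_comm_apply φ σ x)).trans (hE σ _)
  choose g hg using fun v => (sur (T v)).2 fun σ hσ =>
    (hT σ v).symm.trans (by rw [show V.ρ σ = 1 from hσ, Module.End.one_apply])
  let G : V →ₗ[L] bc L (pts (Ec B) (IntermediateField.fixedField V.ρ.ker)) :=
    { toFun := g
      map_add' := fun x y => inj (by rw [map_add, hg, hg, hg, map_add])
      map_smul' := fun c x => inj (by rw [map_smul, hg, hg, map_smul, RingHom.id_apply]) }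
  refine ⟨Rep.ofHom ⟨G, fun σ => LinearMap.ext fun x => inj ?_⟩, LinearMap.ext hg⟩
  exact ((hg _).trans ((hT σ x).trans (congrArg _ (hg x).symm))).trans (hE σ _).symm

theorem exists_rat (L : Type) [Field L] [CharZero L] (B : ℤ) (hN : N ≠ 0) (hy : y ^ 6 = N) :
    ∃ R : L ⊗[ℤ] (Ec (B * N)).toAffine.Point →ₗ[L] L ⊗[ℤ] P0 M B, Function.Injective R ∧
      ∀ x, x ∈ LinearMap.range R ↔ ∀ σ : M ≃ₐ[ℚ] M, TW L B y σ x = x := by
  have y0 := root_ne hN hy
  have h : VC (algebraMap ℚ M) (Ec (B * N)) (W0 M B) (1 / y) 0 0 0 := by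
    refine ⟨by simpa using y0, ?_, ?_, ?_, ?_, ?_⟩ <;> simp [W0, Ec]
    rw [← hy]
    field_simp
  exact ⟨h.hom.toIntLinearMap.baseChange L,
    Module.Flat.lTensor_preserves_injective_linearMap _ h.hom_injective, fun x =>
    (avg_range (L := L) ⊤ (tw B y) (tw_mul hN hy) h.hom (range_iff hN hy h ⊤ fun x => by
        simpa using IsGalois.mem_range_algebraMap_iff_fixed (F := ℚ) x) x).trans
      ⟨fun k σ => k σ trivial, fun k σ _ => k σ⟩⟩

theorem hom_eq {κ : Type} [Fintype κ] {V : Rep L (M ≃ₐ[ℚ] M)} {y : κ → M} {N : κ → ℤ}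
    (w : Module.Basis κ L V) (hw : ∀ (i) (σ : M ≃ₐ[ℚ] M), σ ζ = ζ →
      ∃ k : ℕ, σ (y i) = ζ ^ k * y i ∧ V.ρ σ (w i) = j ^ k • w i) (hτ : τ ζ = 1 - ζ)
    (h : ζ ^ 2 = ζ - 1) (hj : j ^ 2 = j - 1) (hB : B ≠ 0) (hy : ∀ i, y i ^ 6 = N i)
    (hN : ∀ i, N i ≠ 0) (hf : ∀ i, Module.Finite ℤ (Ec (B * N i)).toAffine.Point) :
    Module.Finite L (HomW (Ec B) V) ∧ Module.finrank L (HomW (Ec B) V) =
      ∑ i, Module.finrank ℤ (Ec (B * N i)).toAffine.Point := by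
  have he : (2 * j - 1) / 3 * (1 - 2 * j) = 1 := by linear_combination -4 / 3 * hj
  have h1 : (1 : M) ^ 6 = (1 : ℤ) := by simp
  have h6 := (prim6 h).pow_eq_one
  obtain ⟨X, x1, x2⟩ := exists_lin B V
  choose R r1 r2 using fun i => exists_rat L B (hN i) (hy i)
  obtain ⟨e⟩ := hom_equiv (ρ' := fun i => TW L B (y i)) (two h hτ) (pr_pr hB h hj he)
    (sp hB h he hτ one_ne_zero h1) V.ρ w (fun i σ k => by
      obtain ⟨n, e1, e2⟩ := hw i σ k
      refine ⟨_, pow_ne_zero n (six_ne (prim6 hj).pow_eq_one), e2, fun x hx => ?_⟩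
      have e3 := pr_eig (e := (2 * j - 1) / 3) hB h hj x
      rw [hx] at e3
      rw [TW, TW, ← TL_TL (g := RingHom.id M) (v := ζ ^ n) (tw_six one_ne_zero h1 σ)
        (by rw [← pow_mul, mul_comm, pow_mul, h6, one_pow]) (fun _ => rfl) (a := σ (y i) / y i)
        (by simp [e1, k, root_ne (hN i) (hy i)]), TL_pow h e3, map_smul, smul_smul, ← mul_pow,
        show j * (1 - j) = 1 by linear_combination -hj, one_pow, one_smul]) X x1 x2
  have e' := e.trans (LinearEquiv.piCongrRight fun i => (fix_equiv (two h hτ) (pr_pr hB h hj he)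
    (sp hB h he hτ (hN i) (hy i)) (R i) (r1 i) (r2 i)).some.symm)
  refine ⟨Module.Finite.equiv e'.symm, ?_⟩
  rw [e'.finrank_eq, Module.finrank_pi_fintype]
  exact Finset.sum_congr rfl fun i _ => (TensorProduct.isBaseChange ℤ _ L).finrank_eq

end Pool.Agent.Lib.MP_60ff09_nt.CB
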