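import Pool.Agent.Lib.MP_60ff09_nt.CB.Defs
import Pool.Agent.Lib.MP_60ff09_nt.CB.Abs
import Pool.Agent.Lib.MP_696deb_nt.VarChange

/-! Twisted Galois actions on the points of the curve `y ^ 2 = x ^ 3 + b`. -/

set_option autoImplicit false

open scoped Classical TensorProduct
open WeierstrassCurve WeierstrassCurve.Affine Pool.Agent.Lib.MP_696deb_nt

namespace Pool.Agent.Lib.MP_60ff09_nt.CB

theorem prim6 {K : Type} [Field K] [CharZero K] {ζ : K} (h : ζ ^ 2 = ζ - 1) : IsPrimitiveRoot ζ 6 :=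
  (Polynomial.isRoot_cyclotomic_iff_charZero (by norm_num)).1 (by
    simp [Polynomial.cyclotomic_six, h])

theorem six_ne {K : Type} [Field K] {u : K} (h : u ^ 6 = 1) : u ≠ 0 := by
  rintro rfl
  simp at h

variable {M L : Type} [Field M] [NumberField M] [Field L] {B N : ℤ} {ζ y u v : M}

/-- The curve over a field. -/
def W0 (M : Type) [Field M] (B : ℤ) : WeierstrassCurve M := ⟨0, 0, 0, 0, B⟩

/-- Its points. -/
abbrev P0 (M : Type) [Field M] (B : ℤ) := (W0 M B).toAffine.Point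

omit [NumberField M] in
theorem vc0 (B : ℤ) (f : M →+* M) (h : u ^ 6 = 1) : VC f (W0 M B) (W0 M B) u 0 0 0 := by
  refine ⟨six_ne h, ?_, ?_, ?_, ?_, ?_⟩ <;> simp [W0, h]

/-- The twisted maps. -/
noncomputable def vm (B : ℤ) (f : M →+* M) (u : M) : P0 M B →+ P0 M B :=
  if h : u ^ 6 = 1 then (vc0 B f h).hom else 0

omit [NumberField M] in
theorem vm_comp {K : Type} [Field K] {W : WeierstrassCurve K} {g g' : K →+* M} {f : M →+* M}
    {a a' : M} (hu : u ^ 6 = 1) (h : VC g W (W0 M B) a 0 0 0) (h' : VC g' W (W0 M B) a' 0 0 0)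
    (e : ∀ x, g' x = f (g x)) (e' : a' = u * f a) (P : W.toAffine.Point) :
    vm B f u (h.hom P) = h'.hom P := by
  rw [vm, dif_pos hu]
  rcases P with _ | ⟨x, y, k⟩
  · rfl
  · refine (Point.some.injEq ..).mpr ⟨?_, ?_⟩ <;> simp [e, e'] <;> ring

omit [NumberField M] in
theorem vm_vm {f g k : M →+* M} {a : M} (hu : u ^ 6 = 1) (hv : v ^ 6 = 1) (e : ∀ x, k x = f (g x))
    (e' : a = u * f v) (P : P0 M B) : vm B f u (vm B g v P) = vm B k a P := by
  have ha : a ^ 6 = 1 := by rw [e', mul_pow, ← map_pow, hu, hv, map_one, mul_one]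
  rw [vm.eq_1 B g, vm.eq_1 B k, dif_pos hv, dif_pos ha]
  exact vm_comp hu _ _ e e' P

omit [NumberField M] in
theorem vm_fix {f : M →+* M} (hu : u ^ 6 = 1) {x y : M} {k : (W0 M B).toAffine.Nonsingular x y}
    (h : vm B f u (.some x y k) = .some x y k) : u ^ 2 * f x = x ∧ u ^ 3 * f y = y := by
  rw [vm, dif_pos hu] at h
  simpa using Point.some.inj h

omit [NumberField M] in
theorem vm_one (P : P0 M B) : vm B (RingHom.id M) 1 P = P := by
  rw [vm, dif_pos (one_pow 6)]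
  rcases P with _ | ⟨x, y, k⟩
  · rfl
  · refine (Point.some.injEq ..).mpr ⟨?_, ?_⟩ <;> simp

theorem vm_rel (hB : B ≠ 0) (h : ζ ^ 2 = ζ - 1) (P : P0 M B) :
    vm B (RingHom.id M) (ζ ^ 2) P + P = vm B (RingHom.id M) ζ P := by
  have h6 := (prim6 h).pow_eq_one
  have h3 : ζ ^ 3 = -1 := by linear_combination (ζ + 1) * h
  rw [vm, vm, dif_pos h6, dif_pos (by rw [← pow_mul, mul_comm, pow_mul, h6, one_pow])]
  rcases P with _ | ⟨x, y, k⟩
  · rfl
  have k1 : y ^ 2 = x ^ 3 + B := by simpa [W0] using (equation_iff ..).1 k.1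
  rw [VC.hom_some, VC.hom_some]
  by_cases e : x = 0
  · subst e
    have y0 : y ≠ 0 := fun e => hB (by simpa [e] using k1.symm)
    have e1 : (ζ ^ 2) ^ 3 = 1 := by rw [← pow_mul, h6]
    rw [Point.add_some fun c => y0 (by
      have := c.2
      simp only [negY, W0, toAffine, e1, RingHom.id_apply] at this
      linear_combination this / 2)]
    refine (Point.some.injEq ..).mpr ⟨?_, ?_⟩ <;>
      simp [W0, Affine.slope, addX, addY, negAddY, negY, e1, h3]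
  · have e1 : (ζ ^ 2) ^ 2 * x + 0 ≠ x := fun c => e (by
      linear_combination (ζ - 2) / 3 * c - ((ζ - 2) * (ζ ^ 2 + ζ) - 1) / 3 * x * h)
    have e2 : (ζ ^ 2) ^ 3 = 1 := by rw [← pow_mul, h6]
    rw [Point.add_of_X_ne (by exact e1)]
    refine (Point.some.injEq ..).mpr ⟨?_, ?_⟩ <;>
      simp only [slope_of_X_ne (show (ζ ^ 2) ^ 2 * RingHom.id M x + 0 ≠ x from e1)] <;>
      simp [W0, addX, addY, negAddY, negY, e2, h3]
    linear_combination -(ζ ^ 2 + ζ + 1) * x * h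

theorem root_ne (hN : N ≠ 0) (hy : y ^ 6 = N) : y ≠ 0 := by
  rintro rfl
  exact hN (by exact_mod_cast (hy.symm.trans (by norm_num) : (N : M) = 0))

theorem act_six (hy : y ^ 6 = N) (σ : M ≃ₐ[ℚ] M) : σ y ^ 6 = y ^ 6 := by
  rw [← map_pow, hy, map_intCast]

theorem tw_six (hN : N ≠ 0) (hy : y ^ 6 = N) (σ : M ≃ₐ[ℚ] M) : (σ y / y) ^ 6 = 1 := by
  rw [div_pow, act_six hy, div_self (pow_ne_zero _ (root_ne hN hy))]

theorem exists_exp (h : ζ ^ 2 = ζ - 1) (hN : N ≠ 0) (hy : y ^ 6 = N) (σ : M ≃ₐ[ℚ] M) :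
    ∃ k : ℕ, σ y = ζ ^ k * y := by
  obtain ⟨k, -, e⟩ := (prim6 h).eq_pow_of_pow_eq_one (tw_six hN hy σ)
  exact ⟨k, by rw [e, div_mul_cancel₀ _ (root_ne hN hy)]⟩

theorem tw_mul (hN : N ≠ 0) (hy : y ^ 6 = N) (σ τ : M ≃ₐ[ℚ] M) (P : P0 M B) :
    vm B ((σ * τ : M ≃ₐ[ℚ] M) : M →+* M) ((σ * τ) y / y) P =
      vm B (σ : M →+* M) (σ y / y) (vm B (τ : M →+* M) (τ y / y) P) := by
  refine (vm_vm (tw_six hN hy σ) (tw_six hN hy τ) (fun _ => rfl) ?_ P).symm
  have h0 : σ y ≠ 0 := (map_ne_zero σ).2 (root_ne hN hy)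
  simp only [RingHom.coe_coe, map_div₀, AlgEquiv.mul_apply]
  field_simp

/-- The points over a subfield of a twist are the fixed points of the twisted action. -/
theorem range_iff {K : Type} [Field K] {W : WeierstrassCurve K} {g : K →+* M} (hN : N ≠ 0)
    (hy : y ^ 6 = N) (h : VC g W (W0 M B) (1 / y) 0 0 0) (S : Subgroup (M ≃ₐ[ℚ] M))
    (hS : ∀ x, (∃ x', g x' = x) ↔ ∀ σ ∈ S, σ x = x) (P : P0 M B) :
    P ∈ Set.range h.hom ↔ ∀ σ ∈ S, vm B (σ : M →+* M) (σ y / y) P = P := by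
  have y0 := root_ne hN hy
  have y1 : ∀ σ : M ≃ₐ[ℚ] M, σ y ≠ 0 := fun σ => (map_ne_zero σ).2 y0
  refine ⟨?_, fun k => ?_⟩
  · rintro ⟨P, rfl⟩ σ hσ
    refine vm_comp (tw_six hN hy σ) h h (fun x => ((hS _).1 ⟨x, rfl⟩ σ hσ).symm) ?_ P
    have := y1 σ
    simp only [RingHom.coe_coe, map_div₀, map_one]
    field_simp
  rcases P with _ | ⟨X, Y, n⟩
  · exact ⟨0, rfl⟩
  have e := fun σ hσ => vm_fix (tw_six hN hy σ) (k σ hσ)
  obtain ⟨x, hx⟩ := (hS (y ^ 2 * X)).2 fun σ hσ => by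
    rw [map_mul, map_pow, ← div_mul_cancel₀ (σ y) y0, mul_pow, mul_right_comm, mul_comm]
    exact congrArg _ (e σ hσ).1
  obtain ⟨x', hx'⟩ := (hS (y ^ 3 * Y)).2 fun σ hσ => by
    rw [map_mul, map_pow, ← div_mul_cancel₀ (σ y) y0, mul_pow, mul_right_comm, mul_comm]
    exact congrArg _ (e σ hσ).2
  exact h.mem_range n (x := x) (y := x') (by rw [hx]; field_simp; ring)
    (by rw [hx']; field_simp; ring)

/-- The twisted maps after extension of scalars. -/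
noncomputable def TL (L : Type) [Field L] (B : ℤ) (f : M →+* M) (u : M) :
    Module.End L (L ⊗[ℤ] P0 M B) := (vm B f u).toIntLinearMap.baseChange L

omit [NumberField M] in
theorem TL_ext {f g : L ⊗[ℤ] P0 M B →ₗ[L] L ⊗[ℤ] P0 M B} (h : ∀ l P, f (l ⊗ₜ P) = g (l ⊗ₜ P))
    (x : L ⊗[ℤ] P0 M B) : f x = g x := by
  induction x using TensorProduct.induction_on with
  | zero => simp
  | add x y hx hy => rw [map_add, map_add, hx, hy]
  | tmul l P => exact h l P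

omit [NumberField M] in
theorem TL_TL {f g k : M →+* M} {a : M} (hu : u ^ 6 = 1) (hv : v ^ 6 = 1) (e : ∀ x, k x = f (g x))
    (e' : a = u * f v) (x : L ⊗[ℤ] P0 M B) : TL L B f u (TL L B g v x) = TL L B k a x :=
  TL_ext (f := TL L B f u ∘ₗ TL L B g v) (g := TL L B k a)
    (fun l P => congrArg (l ⊗ₜ[ℤ] ·) (vm_vm hu hv e e' P)) x

theorem TL_rel (hB : B ≠ 0) (h : ζ ^ 2 = ζ - 1) (x : L ⊗[ℤ] P0 M B) :
    TL L B (RingHom.id M) ζ (TL L B (RingHom.id M) ζ x) = TL L B (RingHom.id M) ζ x - x := by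
  have h6 := (prim6 h).pow_eq_one
  rw [TL_TL h6 h6 (k := RingHom.id M) (fun _ => rfl) (sq ζ), eq_sub_iff_add_eq]
  exact TL_ext (f := TL L B (RingHom.id M) (ζ ^ 2) + LinearMap.id)
    (g := TL L B (RingHom.id M) ζ) (fun l P => (TensorProduct.tmul_add ..).symm.trans (congrArg (l ⊗ₜ[ℤ] ·) (vm_rel hB h P))) x

theorem TL_pow (h : ζ ^ 2 = ζ - 1) {c : L} {x : L ⊗[ℤ] P0 M B}
    (e : TL L B (RingHom.id M) ζ x = c • x) (k : ℕ) :
    TL L B (RingHom.id M) (ζ ^ k) x = c ^ k • x := by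
  have h6 := (prim6 h).pow_eq_one
  induction k with
  | zero =>
    rw [pow_zero, pow_zero, one_smul]
    exact TL_ext (g := LinearMap.id) (fun l P => congrArg (l ⊗ₜ[ℤ] ·) (vm_one P)) x
  | succ k ih =>
    rw [← TL_TL (f := RingHom.id M) (g := RingHom.id M) (u := ζ ^ k)
      (by rw [← pow_mul, mul_comm, pow_mul, h6, one_pow]) h6 (fun _ => rfl) (pow_succ ζ k), e,
      map_smul, ih, smul_smul, pow_succ']

end Pool.Agent.Lib.MP_60ff09_nt.CB
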