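import Pool.Agent.Lib.MP_60ff09_nt.CB.Two
import Pool.Agent.Lib.MP_60ff09_nt.CB.Hom
import Pool.Agent.Lib.MP_60ff09_nt.QB.Den
import Pool.Agent.Lib.MP_696deb_nt.Y3.Fam

/-! A set of parameters, of density one in each family, for which the conjecture holds. -/

set_option autoImplicit false

open scoped Classical
open Finset Filter Topology
open Pool.Agent.Lib.MP_696deb_nt Pool.Agent.Lib.MP_696deb_nt.Y3
open Pool.Agent.Lib.MP_696deb_nt.CQ (rootNumber)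

namespace Pool.Agent.Lib.MP_60ff09_nt.CB

theorem Theta6.eig {M L : Type} [Field M] [NumberField M] [Field L] {V : Rep L (M ≃ₐ[ℚ] M)} {ζ : M}
    {y : Fin 2 → M} {j : L} {D : Fin 2 → ℤ} (m : Fin 2 → ℤ) (h : Theta6 V ζ y j)
    (hζ : ζ ^ 2 = ζ - 1) (hD : ∀ a, D a ≠ 0) (hy : ∀ a, y a ^ 6 = D a) :
    ∃ (v : Module.Basis (Fin 2 × Fin 2) L V) (τ : M ≃ₐ[ℚ] M), τ ζ = 1 - ζ ∧
      ∀ (i : Fin 2 × Fin 2) (σ : M ≃ₐ[ℚ] M), σ ζ = ζ → ∃ k : ℕ,
        σ (y i.1 ^ (4 * i.2.1 + 1) / m i.1 ^ i.2.1) =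
          ζ ^ k * (y i.1 ^ (4 * i.2.1 + 1) / m i.1 ^ i.2.1) ∧ V.ρ σ (v i) = j ^ k • v i := by
  obtain ⟨v, τ, h2, h⟩ := h
  have h4 : τ.symm ζ = 1 - ζ := by
    rw [AlgEquiv.symm_apply_eq, map_sub, map_one, h2, sub_sub_cancel]
  refine ⟨v, τ, h2, fun ⟨a, b⟩ σ e1 => ?_⟩
  obtain ⟨h3, h1⟩ := h a
  obtain ⟨n, e2⟩ := exists_exp hζ (hD a) (hy a) σ
  refine ⟨(4 * b.1 + 1) * n, by
    rw [map_div₀, map_pow, map_pow, map_intCast, e2]
    ring, ?_⟩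
  revert b
  refine Fin.forall_fin_two.2 ⟨by simpa using h1 σ n e1 e2, ?_⟩
  obtain ⟨t, ht⟩ := exists_exp hζ (hD a) (hy a) τ
  have e3 := h1 (τ⁻¹ * σ * τ) (5 * n) ((two hζ h2).conj σ e1) (by
    have e4 : τ.symm (ζ ^ n * τ (y a)) = ζ ^ (5 * n) * y a := by
      rw [map_mul, map_pow, h4, AlgEquiv.symm_apply_apply, pow_mul]
      congr 2
      linear_combination -(ζ ^ 3 + ζ ^ 2 - 1) * hζ
    rw [← e4, AlgEquiv.mul_apply, AlgEquiv.mul_apply, ht, map_mul, map_pow, e1, e2, mul_left_comm]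
    rfl)
  rw [← h3, ← map_smul, ← Module.End.mul_apply, ← map_mul,
    show σ * τ = τ * (τ⁻¹ * σ * τ) by group, map_mul, Module.End.mul_apply, e3]
  rfl

variable {A B D N R m b : ℤ}

theorem Ok.five (h : Ok B D) (e : D ^ 5 = R * m ^ 6) : Ok B R := by
  have c : IsCoprime (R * m ^ 6) (2 * B) := e ▸ h.cop.pow_left
  have r0 : R * m ^ 6 ≠ 0 := e ▸ pow_ne_zero 5 h.ne
  refine ⟨c.of_mul_left_left, fun k => ?_, fun p hp k => ?_⟩
  · obtain ⟨t, rfl⟩ : ∃ t, D = 4 * t + 1 := ⟨D / 4, by have := h.four k; omega⟩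
    obtain ⟨s, rfl⟩ : Odd m := Int.not_even_iff_odd.1 fun c' => Int.prime_two.not_isUnit
      (c.isUnit_of_dvd' ((dvd_pow c'.two_dvd (by norm_num)).mul_left R) (dvd_mul_right 2 B))
    have e1 : (4 * t + 1) ^ 5 ≡ 1 ^ 5 [ZMOD 4] := Int.ModEq.pow 5 (by simp [Int.ModEq])
    have e2 : ((2 * s + 1) ^ 2) ^ 3 ≡ 1 ^ 3 [ZMOD 4] :=
      Int.ModEq.pow 3 (Int.modEq_iff_dvd.2 ⟨-(s ^ 2 + s), by ring⟩)
    rw [← pow_mul] at e2
    rw [e] at e1
    simpa [Int.ModEq] using (e2.mul_left R).symm.trans e1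
  · have := Fact.mk hp
    have k1 := h.val p hp ((Nat.prime_iff_prime_int.1 hp).dvd_of_dvd_pow (e ▸ k.mul_right _))
    have k2 := congrArg (padicValInt p) e
    rw [padicValInt.mul (left_ne_zero_of_mul r0) (right_ne_zero_of_mul r0)] at k2
    simp only [padicValInt, Int.natAbs_pow, padicValNat.pow] at k1 k2 ⊢
    omega

theorem Adm.ne (h : Adm B A N) : N ≠ 0 := fun e => h.2 2 Nat.prime_two (by simp [e])

theorem Adm.ok (h : Adm B A N) (hc : IsCoprime A (2 * B)) (h4 : B % 32 = 16 → A % 4 = 1) :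
    Ok B (A * N ^ 2) := by
  refine ⟨hc.mul_left h.1.pow_left, fun k => ?_, fun p hp k => ?_⟩
  · obtain ⟨s, rfl⟩ : Odd N := Int.not_even_iff_odd.1 fun c' => Int.prime_two.not_isUnit
      (h.1.isUnit_of_dvd' c'.two_dvd (dvd_mul_right 2 B))
    have := h4 k
    rw [show A * (2 * s + 1) ^ 2 = A + 4 * (A * (s ^ 2 + s)) by ring]
    omega
  · have := Fact.mk hp
    have k1 := h.2 p hp
    have k0 : A * N ^ 2 ≠ 0 := fun e => k1 (e ▸ dvd_zero _)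
    rw [← pow_one (p : ℤ)] at k
    rw [padicValInt_dvd_iff, or_iff_right k0] at k k1
    omega

/-- The order of vanishing and the rank are given by the root number. -/
def Bs (b : ℤ) : Prop := Bsd b (if rootNumber b = 1 then 0 else 1)

theorem Bs.ex (h : Bs b) (b0 : b ≠ 0) : ∃ G, Differentiable ℂ G ∧ IsF b G ∧
    Module.Finite ℤ (Ec b).toAffine.Point ∧
    Module.finrank ℤ (Ec b).toAffine.Point = (if rootNumber b = 1 then 0 else 1) ∧
    analyticOrderAt G 1 = (Module.finrank ℤ (Ec b).toAffine.Point : ℕ∞) := by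
  obtain ⟨F, f1, f2, -, f3, f4, f5⟩ := (h 0 b rfl rfl).2 (Ec b) (by simp [Ec])
  obtain ⟨G, g1, g2, g3⟩ := exists_G b0 f1 f2
  exact ⟨G, g1, g2, f3, f4, g3.trans f5⟩

/-- The good parameters. -/
def Gd (B D : ℤ) : Prop := Ok B D ∧ Bs (B * D) ∧ ∃ R m : ℤ, D ^ 5 = R * m ^ 6 ∧ Bs (B * R)

theorem tend_gd (hB : B ≠ 0) (hc : IsCoprime A (2 * B)) (h4 : B % 32 = 16 → A % 4 = 1)
    (hA : ∀ p : ℕ, p.Prime → ¬ (p : ℤ) ^ 6 ∣ A) : Tendsto (fun X : ℕ =>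
    (Set.ncard {N : ℤ | |N| ≤ X ∧ Adm B A N ∧ Gd B (A * N ^ 2)} : ℝ) /
      (Set.ncard {N : ℤ | |N| ≤ X ∧ Adm B A N} : ℝ)) atTop (𝓝 1) := by
  have A0 : A ≠ 0 := fun e => hA 2 Nat.prime_two (e ▸ dvd_zero _)
  refine QB.ratio ?_ fun ε hε => ?_
  · obtain ⟨c, c0, X0, h⟩ := QB.dens_cop (mul_ne_zero two_ne_zero hB) A0
    refine ⟨c, c0, X0, fun X hX => (h X hX).trans (Nat.cast_le.2 (card_le_card fun d hd => ?_))⟩
    simp only [mem_filter] at hd ⊢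
    refine ⟨hd.1, hd.2.2.of_mul_right_right, fun p hp k => ?_⟩
    have hP := Nat.prime_iff_prime_int.1 hp
    by_cases e : (p : ℤ) ∣ d
    · have k1 := (hP.coprime_iff_not_dvd.2
        (QB.ndvd hp hd.2.2.of_mul_right_left e)).pow_left.dvd_of_dvd_mul_left k
      rw [show 6 = 3 * 2 from rfl, pow_mul, Int.pow_dvd_pow_iff two_ne_zero] at k1
      exact hP.not_isUnit (hd.2.1 _ ((Dvd.intro (p : ℤ) (by ring)).trans k1))
    · exact hA p hp ((hP.coprime_iff_not_dvd.2 e).pow.dvd_of_dvd_mul_right k)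
  obtain ⟨X0, h⟩ := ((alm2 (mul_ne_zero hB A0)).and (alm4 (mul_ne_zero hB (pow_ne_zero 5 A0))))
    (ε / 2) (half_pos hε)
  refine ⟨X0, fun X hX => ?_⟩
  replace h := h X hX
  rw [Set.ncard_eq_toFinset_card _ ((Set.finite_le_nat X).subset fun n hn => hn.2.1)] at h
  refine le_trans (Nat.cast_le.2 ((card_le_mul_card_image (f := Int.natAbs) _ 2 fun a _ => ?_).trans
    (Nat.mul_le_mul_left 2 (card_le_card fun n hn => ?_)))) (by
      rw [Nat.cast_mul, Nat.cast_ofNat]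
      linarith)
  · refine (card_le_card (t := {(a : ℤ), -(a : ℤ)}) fun d hd => ?_).trans card_le_two
    have := (mem_filter.1 hd).2
    simp only [mem_insert, mem_singleton]
    omega
  · obtain ⟨d, hd, rfl⟩ := mem_image.1 hn
    obtain ⟨d1, d2, d3⟩ := mem_filter.1 hd
    have := d2.ne
    rw [mem_Icc] at d1
    refine (Set.Finite.mem_toFinset _).2 ⟨by omega, by omega, fun k => d3
      ⟨d2.ok hc h4, ?_, A ^ 5 * d ^ 4, d, by ring, ?_⟩⟩
    · simpa only [Bs, Int.natCast_natAbs, sq_abs, mul_assoc] using k.1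
    · simpa only [Bs, Int.natCast_natAbs, (by decide : Even 4).pow_abs, mul_assoc] using k.2

theorem holdsS (hB : B ≠ 0) {D : Fin 2 → ℤ} (h : ∀ a, Gd B (D a)) : HoldsS B D (minus6 B D) := by
  intro M L _ _ _ _ _ ζ y j Vg Vh _ _ hζ hy hj hV
  have : CharZero L := (algebraMap L ℂ).charZero
  choose h1 h2 R m r3 r4 using h
  have r2 : ∀ a, m a ≠ 0 := fun a e => (h1 a).ne (by simpa [e] using r3 a)
  obtain ⟨N, n1, n2, n3⟩ : ∃ N : Fin 2 × Fin 2 → ℤ, (∀ i, Ok B (N i)) ∧ (∀ i, Bs (B * N i)) ∧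
      ∀ i, D i.1 ^ (4 * i.2.1 + 1) = N i * (m i.1 ^ i.2.1) ^ 6 :=
    ⟨fun i => ![D i.1, R i.1] i.2, fun ⟨a, b⟩ => by fin_cases b; exacts [h1 a, (h1 a).five (r3 a)],
      fun ⟨a, b⟩ => by fin_cases b; exacts [h2 a, r4 a],
      fun ⟨a, b⟩ => by fin_cases b <;> simp [r3]⟩
  have n4 : ∀ i, B * N i ≠ 0 := fun i => mul_ne_zero hB (n1 i).ne
  have m0 : ∀ a, (m a : M) ≠ 0 := fun a => Int.cast_ne_zero.2 (r2 a)
  obtain ⟨v, τ, hτ, hv⟩ := hV.eig m hζ (fun a => (h1 a).ne) hy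
  have hY : ∀ i : Fin 2 × Fin 2, (y i.1 ^ (4 * i.2.1 + 1) / m i.1 ^ i.2.1) ^ 6 = N i := fun i => by
    rw [div_pow, ← pow_mul, mul_comm, pow_mul, hy, ← Int.cast_pow, n3,
      div_eq_iff (pow_ne_zero _ (pow_ne_zero _ (m0 _)))]
    push_cast
    rfl
  choose F f1 f2 f4 f5 f6 using fun i => (n2 i).ex (n4 i)
  obtain ⟨k1, k3⟩ := hom_eq v hv hτ hζ hj hB hY (fun i => (n1 i).ne) f4
  have e : minus6 B D = ∑ i, if rootNumber (B * N i) = 1 then 0 else 1 := by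
    rw [minus6, Set.ncard_eq_toFinset_card', Set.toFinset_ofPred, card_filter]
    refine sum_congr rfl fun i _ => ?_
    rw [n3, ← mul_assoc]
    simp only [ne_eq, root_six (n4 i) (pow_ne_zero _ (r2 _)), ite_not]
  rw [e]
  refine ⟨∏ i, F i, Differentiable.finsetProd fun i _ => f1 i,
    isLN v hv hζ hj hY n1 (o := fun i => (i.1, i.2.rev)) (fun i => by simp) (fun ⟨a, b⟩ σ => ?_) f2,
    k1, ?_, k3.trans (sum_congr rfl fun i _ => f5 i)⟩
  · have e1 : y a ^ (4 * b.1 + 1) / m a ^ b.1 * (y a ^ (4 * b.rev.1 + 1) / m a ^ b.rev.1) =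
        D a / m a := by
      rw [← hy]
      fin_cases b <;> simp <;> ring
    simp only [e1, map_div₀, map_intCast]
  · rw [QB.order_prod _ f1, k3, Nat.cast_sum]
    exact sum_congr rfl fun i _ => f6 i

end Pool.Agent.Lib.MP_60ff09_nt.CB
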