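import Pool.Agent.Lib.MP_60ff09_nt.CB.Eul
import Pool.Agent.Lib.MP_696deb_nt.Y3.B3
import Pool.Agent.Lib.MP_696deb_nt.Y3.B5

/-! The Euler factor at two of the curves with good reduction at two. -/

set_option autoImplicit false

open scoped Classical
open Pool.Agent.Lib.MP_696deb_nt Pool.Agent.Lib.MP_696deb_nt.Y3

namespace Pool.Agent.Lib.MP_60ff09_nt.CB

variable {b : ℤ} {F : ℂ → ℂ}

theorem dvd_disc {p : ℕ} (hp : p.Prime) : (p : ℤ) ∣ 2 * (-4 * 0 ^ 3 - 27 * b ^ 2) ↔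
    p = 2 ∨ p ∣ lev b := by
  have hP := Nat.prime_iff_prime_int.1 hp
  have e : (p : ℤ) ∣ 2 * (-4 * 0 ^ 3 - 27 * b ^ 2) ↔ (p : ℤ) ∣ 2 ∨ (p : ℤ) ∣ 3 ∨ (p : ℤ) ∣ b := by
    rw [show 2 * (-4 * 0 ^ 3 - 27 * b ^ 2) = -(2 * (3 ^ 3 * b ^ 2)) by ring, dvd_neg, hP.dvd_mul,
      hP.dvd_mul, hP.dvd_pow_iff_dvd three_ne_zero, hP.dvd_pow_iff_dvd two_ne_zero]
  rw [e, dvd_lev hp, ← Nat.prime_dvd_prime_iff_eq hp Nat.prime_three]
  split_ifs with k
  · simp [k]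
  · rw [← Nat.prime_dvd_prime_iff_eq hp Nat.prime_two]
    exact_mod_cast Iff.rfl

theorem isF_iff {G : ℂ → ℂ} : IsF b G ↔ ∀ s : ℂ, (3 : ℝ) / 2 < s.re →
    HasProd (fun p : ℕ => if p.Prime ∧ ¬ (p : ℤ) ∣ lev b then
      (1 - ((p : ℂ) - (CQ.cnb b p : ℂ)) * (p : ℂ) ^ (-s) + (p : ℂ) ^ (1 - 2 * s))⁻¹ else 1) (G s) := by
  refine forall₂_congr fun s _ => iff_of_eq (congrArg (HasProd · _) (funext fun p => ?_))
  by_cases h : p.Prime <;> by_cases k : p ∣ lev b <;> simp [lf, h, k, Int.natCast_dvd_natCast]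

theorem exists_G (b0 : b ≠ 0) (hF : Differentiable ℂ F) (e : CX.Eul 0 b F) :
    ∃ G, Differentiable ℂ G ∧ IsF b G ∧ analyticOrderAt G 1 = analyticOrderAt F 1 := by
  by_cases hb : b % 64 = 16
  swap
  · refine ⟨F, hF, isF_iff.2 fun s hs => ?_, rfl⟩
    refine (congrArg (HasProd · _) (funext fun p => if_congr (and_congr_right fun hp => not_congr ?_)
      rfl rfl)).mpr (e s hs)
    rw [dvd_disc hp, Int.natCast_dvd_natCast,
      or_iff_right_of_imp fun k => (dvd_lev hp).2 (.inr (by rwa [if_pos k]))]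
  obtain ⟨u, hu⟩ : ∃ u, b = 16 * u := ⟨b / 16, by omega⟩
  have u0 : u ≠ 0 := by omega
  have u2 : ¬ ((2 : ℕ) : ℤ) ∣ u := by omega
  have w : CX.Tw b (-3 * u) (8 * u.natAbs ^ 2) := ⟨by simp [u0], by
    push_cast
    rw [hu, sq_abs]
    ring⟩
  obtain ⟨d, h1, r⟩ := exists_relD w.D_ne
  obtain ⟨n, t, h3, h4, -, h6⟩ := exists_cf w.ne
  have h : Red d n := ⟨h3, h4, h1⟩
  obtain ⟨φ, hφ⟩ := h.exists_phi
  obtain ⟨L, hL⟩ := h.exists_isL hφ
  have n2 : ¬ ((2 : ℕ) : ℤ) ∣ n := (b3_red (A := u ^ 2) (u := 2) (v := t) Nat.prime_two three_ne_zero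
    two_ne_zero (by
      have := congrArg (Nat.cast : ℕ → ℤ) h6
      push_cast at this
      rw [← this, sq_abs]
      ring) (fun k => u2 (Int.prime_two.dvd_of_dvd_pow k)) fun k => (h4 2).not_ge
        ((Nat.prime_two.pow_dvd_iff_le_factorization h3).1 (by exact_mod_cast k))).1
  have d4 : d % 4 = 1 := by
    obtain ⟨-, m, m1, ⟨rfl, k⟩ | ⟨rfl, k⟩⟩ := b1_shape h1
    · exact k
    obtain ⟨s, c, s0, -, e3⟩ := r
    obtain ⟨x, x1, e3⟩ : ∃ x : ℤ, (x = m ∨ x = -3 * m) ∧ -3 * u * s ^ 2 = x * (2 * c) ^ 2 :=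
      e3.elim (fun e => ⟨_, .inl rfl, by rw [e]; ring⟩) fun e => ⟨_, .inr rfl, by rw [e]; ring⟩
    obtain ⟨-, s, c, s1, c1, e4⟩ := b3_red Nat.prime_two two_ne_zero s0 e3 (by omega) (by omega)
    obtain ⟨i, hi⟩ := Int.eight_dvd_sq_sub_one_of_odd (Int.odd_iff.2 (by omega : s % 2 = 1))
    obtain ⟨l, hl⟩ := Int.eight_dvd_sq_sub_one_of_odd (Int.odd_iff.2 (by omega : c % 2 = 1))
    have : -3 * u + 8 * (-3 * u * i) = x + 8 * (x * l) := by
      linear_combination e4 + 3 * u * hi + x * hl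
    omega
  rw [h6] at w
  obtain ⟨a, a1, a2, a3, a4⟩ := hφ.gch.hecke
  have k2 : (EV.D.kr d 2 : ℂ) ^ 2 = 1 := by
    rw [EV.D.kr, if_pos d4, ← Int.cast_pow, jacobiSym.sq_one (by
      rw [Int.gcd_natCast_natCast]
      exact Nat.coprime_two_left.2 (Int.natAbs_odd.2 (Int.odd_iff.2 (by omega)))), Int.cast_one]
  have c2 : (if ((2 : ℕ) : ℤ) ∣ 3 * n then 0 else ((2 : ℕ) : ℤ)) = (2 : ℕ) := if_neg (by omega)
  have hT : ∀ p : ℕ, p.Prime → ¬ (p : ℤ) ∣ lev b → (EV.D.kr d p : ℂ) * a p = p - CQ.cnb b p ∧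
      (EV.D.kr d p : ℂ) ^ 2 = 1 ∧ (if (p : ℤ) ∣ 3 * n then 0 else (p : ℤ)) = p := fun p hp k => by
    by_cases p2 : p = 2
    · subst p2
      exact ⟨by simp [a3 2 hp rfl, cnb_eq hp], k2, c2⟩
    have := Fact.mk hp
    have k0 : ¬ (p : ℤ) ∣ 6 * b := fun e => ((dvd_disc hp).1 (e.trans ⟨-9 * b, by ring⟩)).elim p2
      fun e => k (Int.natCast_dvd_natCast.2 e)
    obtain ⟨k4, k5, j, j1, j2⟩ := b3_cnt w r h hp k0
    have k3 : p % 3 ≠ 0 := fun e => k0 ((show (p : ℤ) ∣ 6 by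
      rw [← (Nat.prime_dvd_prime_iff_eq Nat.prime_three hp).1 (Nat.dvd_of_mod_eq_zero e)]
      norm_num).mul_right b)
    rw [h.kr_odd (hp.odd_of_ne_two p2)]
    refine ⟨?_, by rw [← Int.cast_pow, ← jacobiSym.pow_left, CQ.jac_sq hp k5, Int.cast_one],
      if_neg (nd_three hp k3 (mt Int.natCast_dvd_natCast.1 k4))⟩
    suffices e : jacobiSym d p * a p = p - CQ.cnb b p by
      exact_mod_cast congrArg (Int.cast : ℤ → ℂ) e
    rw [j2]
    rcases (by omega : p % 3 = 1 ∨ p % 3 = 2) with e | e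
    · obtain ⟨z, ρ, χ, hq⟩ := CL.exists_qc e
      have k9 := a4 p z hp e hq.norm
      rw [hφ.qc p z ρ χ hq k4, star_mul', star_star, ← hq.count k4, Int.cast_inj] at k9
      rw [k9, j1 e]
    · rw [a3 p hp e, CL.count_two e, sub_self, mul_zero, mul_zero]
  have x1 : (EV.D.kr d 1 : ℂ) = 1 := by rw [h.kr_odd odd_one, jacobiSym.one_right, Int.cast_one]
  have x2 : ∀ m n, (EV.D.kr d (m * n) : ℂ) = EV.D.kr d m * EV.D.kr d n := fun _ _ => by
    rw [h.kr_mul, Int.cast_mul]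
  have l2 : ¬ 2 ∣ lev b := by simp [dvd_lev Nat.prime_two, hb]
  have l0 : lev b ≠ 0 := fun k => l2 (k ▸ dvd_zero 2)
  have m0 : 2 * (-4 * 0 ^ 3 - 27 * b ^ 2) ≠ 0 := by simp [b0]
  have m1 : (2 * (-4 * 0 ^ 3 - 27 * b ^ 2)).natAbs.primeFactors = insert 2 (lev b).primeFactors := by
    ext p
    simp only [Finset.mem_insert, Nat.mem_primeFactors, ne_eq, l0, Int.natAbs_eq_zero, m0,
      not_false_eq_true, and_true, ← Int.natCast_dvd]
    exact ⟨fun k => ((dvd_disc k.1).1 k.2).imp_right fun e => ⟨k.1, e⟩, fun k => k.elim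
      (fun k => by subst k; exact ⟨Nat.prime_two, dvd_mul_right ..⟩) fun k => ⟨k.1, (dvd_disc k.1).2 (.inr k.2)⟩⟩
  let E := loc (fun n => (EV.D.kr d n : ℂ)) a fun p => if (p : ℤ) ∣ 3 * n then 0 else p
  have hE : ∀ p, p.Prime → Differentiable ℂ (E p) := fun p hp => loc_differentiable _ _ _ hp.ne_zero
  have hG : Differentiable ℂ fun s => (∏ p ∈ (lev b).primeFactors, E p s) * (L s / 6) :=
    (Differentiable.fun_finsetProd fun p hp => hE p (Nat.mem_primeFactors.mp hp).1).mul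
      (hL.1.div_const _)
  refine ⟨_, hG, isF_iff.2 fun s hs => ?_, ?_⟩
  · have S := b3_sum a2 hL hs
    exact S.LSeries_eq ▸ hasProd_frozen a1 x1 x2 S.LSeriesSummable (Nat.cast_ne_zero.2 l0) _ hT
  rw [(hF.differentiableOn.analyticOnNhd isOpen_univ).eq_of_eventuallyEq
    (((hE 2 Nat.prime_two).mul hG).differentiableOn.analyticOnNhd isOpen_univ) (z₀ := 2)
    (((isOpen_lt continuous_const Complex.continuous_re).eventually_mem
      (show (3 : ℝ) / 2 < (2 : ℂ).re by norm_num)).mono fun s hs => ?_),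
    analyticOrderAt_mul ((hE 2 Nat.prime_two).analyticAt 1) (hG.analyticAt 1),
    ((hE 2 Nat.prime_two).analyticAt 1).analyticOrderAt_eq_zero.2 (loc_one_ne_zero _ _ _
      two_ne_zero (.inr ⟨sq_eq_sq_iff_eq_or_eq_neg.1 (k2.trans (one_pow 2).symm), by
        rw [a3 2 Nat.prime_two rfl, c2]
        norm_num⟩)),
    zero_add]
  have S := b3_sum a2 hL hs
  rw [(e s hs).unique (hasProd_frozen a1 x1 x2 S.LSeriesSummable m0
    (fun p => (p : ℂ) - (CQ.cnb b p : ℂ)) fun p hp k => hT p hp fun c =>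
      k ((dvd_disc hp).2 (.inr (Int.natCast_dvd_natCast.1 c)))), S.LSeries_eq, m1,
    Finset.prod_insert fun k => l2 (Nat.dvd_of_mem_primeFactors k), mul_assoc]
  rfl

theorem root_six {m : ℤ} (b0 : b ≠ 0) (hm : m ≠ 0) :
    CQ.rootNumber (b * m ^ 6) = 1 ↔ CQ.rootNumber b = 1 := by
  have n0 : 2 * b.natAbs ^ 2 ≠ 0 := by simp [b0]
  have t0 := Int.natAbs_ne_zero.2 hm
  rw [← CQ.wq_iff (b := b) (D := -3 * b) n0 (by push_cast; rw [sq_abs]; ring), ← wq_cube n0 t0,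
    CQ.wq_iff (b := b * m ^ 6) (mul_ne_zero n0 (pow_ne_zero 3 t0)) (by
      push_cast
      rw [sq_abs, mul_pow (2 * b ^ 2), ← pow_mul, (by decide : Even (3 * 2)).pow_abs]
      ring)]

end Pool.Agent.Lib.MP_60ff09_nt.CB
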